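import Mathlib

set_option autoImplicit false

/-!
Combinatorial core of the co-hopficity counterexample: the sparse set of powers of two.
-/

namespace Pool.Agent.H775R3.CoHopf

open Finsupp

/-- the indicator of the positive powers of two inside the integers -/
noncomputable def lam (n : ℤ) : ZMod 2 := by
  classical exact if ∃ k : ℕ, n = 2 ^ k then 1 else 0

theorem lam_pow (k : ℕ) : lam (2 ^ k) = 1 := by
  classical
  unfold lam
  rw [if_pos ⟨k, rfl⟩]

theorem lam_neg_of_nonpos {n : ℤ} (h : n ≤ 0) : lam n = 0 := by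
  classical
  unfold lam
  rw [if_neg]
  rintro ⟨k, hk⟩
  have : (0 : ℤ) < 2 ^ k := by positivity
  omega

theorem lam_ne_zero {n : ℤ} (h : lam n ≠ 0) : ∃ k : ℕ, n = 2 ^ k := by
  classical
  by_contra hc
  apply h
  unfold lam
  rw [if_neg hc]

theorem lam_two_mul (n : ℤ) : lam (2 * n) = lam n := by
  classical
  unfold lam
  by_cases h : ∃ k : ℕ, n = 2 ^ k
  · rw [if_pos h, if_pos]
    obtain ⟨k, hk⟩ := h
    exact ⟨k + 1, by rw [hk, pow_succ]; ring⟩
  · rw [if_neg h, if_neg]
    rintro ⟨k, hk⟩
    apply h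
    cases k with
    | zero => simp at hk; omega
    | succ k => exact ⟨k, by rw [pow_succ] at hk; linarith⟩

/-- the symmetrised indicator -/
noncomputable def om (n : ℤ) : ZMod 2 := lam n + lam (-n)

theorem om_neg (n : ℤ) : om (-n) = om n := by
  unfold om; rw [neg_neg, add_comm]

theorem om_pow (k : ℕ) : om (2 ^ k) = 1 := by
  unfold om
  rw [lam_pow, lam_neg_of_nonpos, add_zero]
  have : (0 : ℤ) < 2 ^ k := by positivity
  omega

theorem om_ne_zero {n : ℤ} (h : om n ≠ 0) : ∃ k : ℕ, |n| = 2 ^ k := by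
  unfold om at h
  by_cases h1 : lam n = 0
  · have h2 : lam (-n) ≠ 0 := by
      intro h2; apply h; rw [h1, h2, add_zero]
    obtain ⟨k, hk⟩ := lam_ne_zero h2
    refine ⟨k, ?_⟩
    rw [← abs_neg, hk]
    exact abs_of_pos (by positivity)
  · obtain ⟨k, hk⟩ := lam_ne_zero h1
    refine ⟨k, ?_⟩
    rw [hk]
    exact abs_of_pos (by positivity)

/-- For every bound there is a larger power of two. -/
theorem exists_pow_gt (D : ℤ) : ∃ L : ℕ, D < 2 ^ L := by
  obtain ⟨L, hL⟩ := pow_unbounded_of_one_lt D (by norm_num : (1 : ℤ) < 2)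
  exact ⟨L, hL⟩

theorem dvd_of_lt_pow {L l : ℕ} (h : (2 : ℤ) ^ L < 2 * 2 ^ l) : L ≤ l := by
  by_contra hc
  push Not at hc
  have h1 : l + 1 ≤ L := hc
  have h2 : (2 : ℤ) ^ (l + 1) ≤ 2 ^ L := pow_le_pow_right₀ (by norm_num) h1
  rw [pow_succ] at h2
  linarith

/-- Main combinatorial lemma. -/
theorem main_comb (F : ℤ →₀ ZMod 2) (m : ℤ) (hm : Odd m)
    (h : ∀ k : ℤ, (F.sum fun i a => F.sum fun j b => a * b * om (m * k + i - j)) = om k) :
    (m = 1 ∨ m = -1) ∧ ∃ e : ℤ, F = single e 1 := by
  classical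
  have hm0 : m ≠ 0 := by rintro rfl; simp at hm
  have hF0 : F ≠ 0 := by
    rintro rfl
    have := h 1
    simp at this
    have h2 := om_pow 0
    simp at h2
    rw [h2] at this
    exact zero_ne_one this
  have hne : F.support.Nonempty := Finsupp.support_nonempty_iff.mpr hF0
  set M := F.support.max' hne with hM
  set μ := F.support.min' hne with hμ
  have hMμ : μ ≤ M := Finset.min'_le_max' _ _
  have hMmem : M ∈ F.support := Finset.max'_mem _ _
  have hμmem : μ ∈ F.support := Finset.min'_mem _ _
  have hbd : ∀ i ∈ F.support, μ ≤ i ∧ i ≤ M := fun i hi =>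
    ⟨Finset.min'_le _ _ hi, Finset.le_max' _ _ hi⟩
  obtain ⟨L, hL⟩ := exists_pow_gt (4 * (M - μ) + 4)
  have hone : ∀ i ∈ F.support, F i = 1 := by
    intro i hi
    have h1 : F i ≠ 0 := Finsupp.mem_support_iff.mp hi
    generalize F i = x at h1
    revert h1
    revert x
    decide
  -- Part 1
  have part1 : m = 1 ∨ m = -1 := by
    have h1 := h (2 ^ L)
    rw [om_pow] at h1
    have h2 : ∃ i ∈ F.support, ∃ j ∈ F.support, om (m * 2 ^ L + i - j) ≠ 0 := by
      by_contra hc
      push Not at hc
      have : (F.sum fun i a => F.sum fun j b => a * b * om (m * 2 ^ L + i - j)) = 0 := by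
        unfold Finsupp.sum
        apply Finset.sum_eq_zero
        intro i hi
        apply Finset.sum_eq_zero
        intro j hj
        beta_reduce
        rw [hc i hi j hj, mul_zero]
      rw [this] at h1
      exact zero_ne_one h1
    obtain ⟨i, hi, j, hj, hij⟩ := h2
    obtain ⟨l, hl⟩ := om_ne_zero hij
    have bi := hbd i hi
    have bj := hbd j hj
    set X : ℤ := 2 ^ L with hX
    have hXpos : 0 < X := by positivity
    have habs : X ≤ |m| * X := by
      have : 1 ≤ |m| := Int.one_le_abs hm0
      nlinarith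
    have hmX : |m * X| = |m| * X := by rw [abs_mul, abs_of_pos hXpos]
    have hlow : |m| * X - (M - μ) ≤ 2 ^ l := by
      rw [← hl, ← hmX]
      have h3 : |m * X| ≤ |m * X + i - j| + |j - i| := by
        have := abs_add_le (m * X + i - j) (j - i)
        have h4 : m * X + i - j + (j - i) = m * X := by ring
        rw [h4] at this
        exact this
      have h5 : |j - i| ≤ M - μ := abs_le.mpr ⟨by linarith [bi.1, bi.2, bj.1, bj.2], by linarith [bi.1, bi.2, bj.1, bj.2]⟩
      linarith
    have hLl : L ≤ l := dvd_of_lt_pow (by rw [← hX]; linarith)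
    have hdvd : (2 : ℤ) ^ L ∣ 2 ^ l := pow_dvd_pow _ hLl
    have hdvd2 : X ∣ m * X + i - j := by
      have : X ∣ |m * X + i - j| := by rw [hl]; exact hdvd
      exact (dvd_abs _ _).mp this
    have hdvd3 : X ∣ i - j := by
      have h4 : m * X + i - j = m * X + (i - j) := by ring
      rw [h4] at hdvd2
      exact (dvd_add_right (Dvd.intro_left m rfl)).mp hdvd2
    have hij0 : i - j = 0 := by
      apply Int.eq_zero_of_abs_lt_dvd hdvd3
      exact abs_lt.mpr ⟨by linarith [bi.1, bi.2, bj.1, bj.2], by linarith [bi.1, bi.2, bj.1, bj.2]⟩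
    have h6 : |m| * X = 2 ^ l := by
      rw [← hl, ← hmX]
      congr 1
      linarith
    have h7 : |m| = 2 ^ (l - L) := by
      have : (2 : ℤ) ^ l = 2 ^ (l - L) * X := by
        rw [hX, ← pow_add]; congr 1; omega
      rw [this] at h6
      exact mul_right_cancel₀ (ne_of_gt hXpos) h6
    have h8 : Odd |m| := by
      rcases abs_choice m with h | h <;> rw [h]
      · exact hm
      · exact hm.neg
    have h9 : l - L = 0 := by
      by_contra hne0
      rw [h7] at h8
      have : Even ((2 : ℤ) ^ (l - L)) := (Int.even_pow.mpr ⟨even_two, hne0⟩)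
      exact (Int.not_odd_iff_even.mpr this) h8
    rw [h9, pow_zero] at h7
    exact (abs_eq (by norm_num)).mp h7
  refine ⟨part1, ?_⟩
  -- symmetric form
  have hsym : ∀ k : ℤ, (F.sum fun i a => F.sum fun j b => a * b * om (k + i - j)) = om k := by
    intro k
    rcases part1 with rfl | rfl
    · have := h k
      rw [one_mul] at this
      exact this
    · have := h k
      rw [← this]
      unfold Finsupp.sum
      rw [Finset.sum_comm]
      apply Finset.sum_congr rfl
      intro i _
      apply Finset.sum_congr rfl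
      intro j _
      have h4 : -1 * k + i - j = -(k + j - i) := by ring
      beta_reduce
      rw [h4, om_neg, mul_comm (F i) (F j)]
  have hk := hsym (2 ^ L - (M - μ))
  have hsum : (F.sum fun i a => F.sum fun j b => a * b * om (2 ^ L - (M - μ) + i - j)) = 1 := by
    have hcrit : ∀ i ∈ F.support, ∀ j ∈ F.support,
        om (2 ^ L - (M - μ) + i - j) ≠ 0 → i = M ∧ j = μ := by
      intro i hi j hj hne0
      obtain ⟨l, hl⟩ := om_ne_zero hne0
      have bi := hbd i hi
      have bj := hbd j hj
      have hpos : 0 < (2 : ℤ) ^ L - (M - μ) + i - j := by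
        linarith [bi.1, bi.2, bj.1, bj.2]
      rw [abs_of_pos hpos] at hl
      have hLl : L ≤ l := dvd_of_lt_pow (by rw [← hl]; linarith [bi.1, bi.2, bj.1, bj.2])
      have h5 : (2 : ℤ) ^ L ≤ 2 ^ l := pow_le_pow_right₀ (by norm_num) hLl
      constructor
      · linarith [bi.1, bi.2, bj.1, bj.2]
      · linarith [bi.1, bi.2, bj.1, bj.2]
    unfold Finsupp.sum
    beta_reduce
    rw [Finset.sum_eq_single M, Finset.sum_eq_single μ]
    · rw [hone M hMmem, hone μ hμmem]
      have h4 : (2 : ℤ) ^ L - (M - μ) + M - μ = 2 ^ L := by ring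
      rw [h4, om_pow]
      rfl
    · intro j hj hjne
      by_contra hc
      have : om (2 ^ L - (M - μ) + M - j) ≠ 0 := by
        intro h0; apply hc; rw [h0, mul_zero]
      exact hjne (hcrit M hMmem j hj this).2
    · intro h0; exact absurd hμmem h0
    · intro i hi hine
      apply Finset.sum_eq_zero
      intro j hj
      by_contra hc
      have : om (2 ^ L - (M - μ) + i - j) ≠ 0 := by
        intro h0; apply hc; rw [h0, mul_zero]
      exact hine (hcrit i hi j hj this).1
    · intro h0; exact absurd hMmem h0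
  rw [hsum] at hk
  have hne0 : om (2 ^ L - (M - μ)) ≠ 0 := by
    rw [← hk]; exact one_ne_zero
  obtain ⟨l, hl⟩ := om_ne_zero hne0
  rw [abs_of_pos (by linarith)] at hl
  have hLl : L ≤ l := dvd_of_lt_pow (by rw [← hl]; linarith)
  have h5 : (2 : ℤ) ^ L ≤ 2 ^ l := pow_le_pow_right₀ (by norm_num) hLl
  have hD : M = μ := by linarith
  refine ⟨M, ?_⟩
  ext k
  by_cases hk' : k = M
  · subst hk'
    rw [hone _ hMmem]; simp
  · rw [Finsupp.single_apply, if_neg (Ne.symm hk')]
    by_contra hc
    have hks : k ∈ F.support := Finsupp.mem_support_iff.mpr hc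
    have := hbd k hks
    exact hk' (by omega)

end Pool.Agent.H775R3.CoHopf
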