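import Mathlib
import Pool.Agent.H775R3.CoHopfComb

set_option autoImplicit false

/-!
The groups used in the co-hopficity counterexample: `Ext P ν σ` is the semidirect product of
`N × ℤ/3` by `P`, where `N` is the central extension of the space of finitely supported functions
`ℤ → ℤ/2` by `ℤ/2` with the bilinear cocycle given by `lam`.
-/

namespace Pool.Agent.H775R3.CoHopf

open Finsupp

/-- shift by `n` -/
noncomputable def sh (n : ℤ) : (ℤ →₀ ZMod 2) →+ (ℤ →₀ ZMod 2) :=
  Finsupp.mapDomain.addMonoidHom (fun i => n + i)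

theorem sh_single (n i : ℤ) (a : ZMod 2) : sh n (single i a) = single (n + i) a := by
  unfold sh
  simp [Finsupp.mapDomain_single]

theorem sh_zero (f : ℤ →₀ ZMod 2) : sh 0 f = f := by
  unfold sh
  simp only [zero_add]
  exact Finsupp.mapDomain_id

theorem sh_add (m n : ℤ) (f : ℤ →₀ ZMod 2) : sh (m + n) f = sh m (sh n f) := by
  unfold sh
  simp only [Finsupp.mapDomain.addMonoidHom_apply]
  rw [← Finsupp.mapDomain_comp]
  congr 1
  funext i
  simp [add_assoc]

theorem sh_neg_sh (n : ℤ) (f : ℤ →₀ ZMod 2) : sh (-n) (sh n f) = f := by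
  rw [← sh_add, neg_add_cancel, sh_zero]

theorem sh_sh_neg (n : ℤ) (f : ℤ →₀ ZMod 2) : sh n (sh (-n) f) = f := by
  rw [← sh_add, add_neg_cancel, sh_zero]

/-- the bilinear cocycle -/
noncomputable def bt (f g : ℤ →₀ ZMod 2) : ZMod 2 :=
  f.sum fun i a => g.sum fun j b => a * b * lam (i - j)

theorem bt_add_left (f f' g : ℤ →₀ ZMod 2) : bt (f + f') g = bt f g + bt f' g := by
  unfold bt
  rw [Finsupp.sum_add_index']
  · intro i; simp
  · intro i a a'
    rw [← Finsupp.sum_add]
    apply Finsupp.sum_congr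
    intro j _
    ring

theorem bt_add_right (f g g' : ℤ →₀ ZMod 2) : bt f (g + g') = bt f g + bt f g' := by
  unfold bt
  rw [← Finsupp.sum_add]
  apply Finsupp.sum_congr
  intro i _
  rw [Finsupp.sum_add_index']
  · intro j; simp
  · intro j b b'; ring

theorem bt_zero_left (g : ℤ →₀ ZMod 2) : bt 0 g = 0 := by
  unfold bt; simp

theorem bt_zero_right (f : ℤ →₀ ZMod 2) : bt f 0 = 0 := by
  unfold bt; simp

theorem bt_single (i j : ℤ) (a b : ZMod 2) : bt (single i a) (single j b) = a * b * lam (i - j) := by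
  unfold bt
  rw [Finsupp.sum_single_index, Finsupp.sum_single_index]
  · simp
  · simp

theorem bt_sh (n : ℤ) (f g : ℤ →₀ ZMod 2) : bt (sh n f) (sh n g) = bt f g := by
  induction f using Finsupp.induction_linear with
  | zero => simp [bt_zero_left]
  | add f f' hf hf' => rw [map_add, bt_add_left, bt_add_left, hf, hf']
  | single i a =>
    induction g using Finsupp.induction_linear with
    | zero => simp [bt_zero_right]
    | add g g' hg hg' => rw [map_add, bt_add_right, bt_add_right, hg, hg']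
    | single j b =>
      rw [sh_single, sh_single, bt_single, bt_single]
      congr 2
      ring

/-- doubling of indices -/
noncomputable def dbl : (ℤ →₀ ZMod 2) →+ (ℤ →₀ ZMod 2) :=
  Finsupp.mapDomain.addMonoidHom (fun i => 2 * i)

theorem dbl_single (i : ℤ) (a : ZMod 2) : dbl (single i a) = single (2 * i) a := by
  unfold dbl
  simp [Finsupp.mapDomain_single]

theorem dbl_injective : Function.Injective dbl := by
  have : Function.Injective (fun i : ℤ => 2 * i) := by
    intro i j h
    simpa using h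
  exact Finsupp.mapDomain_injective this

theorem dbl_sh (n : ℤ) (f : ℤ →₀ ZMod 2) : dbl (sh n f) = sh (2 * n) (dbl f) := by
  unfold dbl sh
  simp only [Finsupp.mapDomain.addMonoidHom_apply]
  rw [← Finsupp.mapDomain_comp, ← Finsupp.mapDomain_comp]
  congr 1
  funext i
  simp [mul_add]

theorem bt_dbl (f g : ℤ →₀ ZMod 2) : bt (dbl f) (dbl g) = bt f g := by
  induction f using Finsupp.induction_linear with
  | zero => simp [bt_zero_left]
  | add f f' hf hf' => rw [map_add, bt_add_left, bt_add_left, hf, hf']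
  | single i a =>
    induction g using Finsupp.induction_linear with
    | zero => simp [bt_zero_right]
    | add g g' hg hg' => rw [map_add, bt_add_right, bt_add_right, hg, hg']
    | single j b =>
      rw [dbl_single, dbl_single, bt_single, bt_single]
      congr 1
      rw [← lam_two_mul (i - j)]
      congr 1
      ring

/-- the extension -/
@[ext]
structure Ext (P : Type) [CommGroup P] (ν : P →* Multiplicative ℤ) (σ : P →* (ZMod 3)ˣ) where
  p : P
  f : ℤ →₀ ZMod 2
  c : ZMod 2
  y : ZMod 3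

namespace Ext

variable {P : Type} [CommGroup P] {ν : P →* Multiplicative ℤ} {σ : P →* (ZMod 3)ˣ}

noncomputable instance : Mul (Ext P ν σ) :=
  ⟨fun x x' => ⟨x.p * x'.p, x.f + sh (ν x.p).toAdd x'.f,
    x.c + x'.c + bt x.f (sh (ν x.p).toAdd x'.f), x.y + (σ x.p : ZMod 3) * x'.y⟩⟩

noncomputable instance : One (Ext P ν σ) := ⟨⟨1, 0, 0, 0⟩⟩

noncomputable instance : Inv (Ext P ν σ) :=
  ⟨fun x => ⟨x.p⁻¹, - sh (-(ν x.p).toAdd) x.f, - x.c + bt x.f x.f,
    - ((σ x.p)⁻¹ : (ZMod 3)ˣ) * x.y⟩⟩

@[simp] theorem mul_p (x x' : Ext P ν σ) : (x * x').p = x.p * x'.p := rfl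
@[simp] theorem mul_f (x x' : Ext P ν σ) : (x * x').f = x.f + sh (ν x.p).toAdd x'.f := rfl
@[simp] theorem mul_c (x x' : Ext P ν σ) :
    (x * x').c = x.c + x'.c + bt x.f (sh (ν x.p).toAdd x'.f) := rfl
@[simp] theorem mul_y (x x' : Ext P ν σ) : (x * x').y = x.y + (σ x.p : ZMod 3) * x'.y := rfl
@[simp] theorem one_p : (1 : Ext P ν σ).p = 1 := rfl
@[simp] theorem one_f : (1 : Ext P ν σ).f = 0 := rfl
@[simp] theorem one_c : (1 : Ext P ν σ).c = 0 := rfl
@[simp] theorem one_y : (1 : Ext P ν σ).y = 0 := rfl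
@[simp] theorem inv_p (x : Ext P ν σ) : (x⁻¹).p = x.p⁻¹ := rfl
@[simp] theorem inv_f (x : Ext P ν σ) : (x⁻¹).f = - sh (-(ν x.p).toAdd) x.f := rfl
@[simp] theorem inv_c (x : Ext P ν σ) : (x⁻¹).c = - x.c + bt x.f x.f := rfl
@[simp] theorem inv_y (x : Ext P ν σ) : (x⁻¹).y = - ((σ x.p)⁻¹ : (ZMod 3)ˣ) * x.y := rfl

theorem bt_neg_left (f g : ℤ →₀ ZMod 2) : bt (-f) g = - bt f g := by
  have := bt_add_left f (-f) g
  rw [add_neg_cancel, bt_zero_left] at this
  exact (neg_eq_of_add_eq_zero_right this.symm).symm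

noncomputable instance : Group (Ext P ν σ) :=
  Group.ofLeftAxioms
    (by
      intro x y z
      ext1
      · simp [mul_assoc]
      · simp [sh_add, add_assoc]
      · simp only [mul_c, mul_p, mul_f, map_mul, toAdd_mul, map_add, bt_add_left, bt_add_right,
          sh_add, bt_sh]
        ring
      · simp only [mul_y, mul_p, map_mul, Units.val_mul]
        ring)
    (by
      intro x
      ext1
      · simp
      · simp [sh_zero]
      · simp [sh_zero, bt_zero_left]
      · simp)
    (by
      intro x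
      ext1
      · simp
      · simp
      · simp only [mul_c, inv_c, inv_f, inv_p, map_inv, toAdd_inv, one_c]
        rw [bt_neg_left, bt_sh]
        ring
      · simp only [mul_y, inv_y, inv_p, map_inv, one_y]
        ring)

/-- functoriality -/
noncomputable def mapP {Q : Type} [CommGroup Q] {ν' : Q →* Multiplicative ℤ} {σ' : Q →* (ZMod 3)ˣ}
    (j : P →* Q) (hν : ∀ p, ν' (j p) = ν p) (hσ : ∀ p, σ' (j p) = σ p) :
    Ext P ν σ →* Ext Q ν' σ' :=
  MonoidHom.mk' (fun x => ⟨j x.p, x.f, x.c, x.y⟩) (by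
    intro x y
    ext1
    · simp
    · simp [hν]
    · simp [hν]
    · simp [hσ])

end Ext

end Pool.Agent.H775R3.CoHopf
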