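import Mathlib
import Pool.Agent.H775R3.CoHopfGroup

set_option autoImplicit false

/-!
The group `HH` is co-hopfian and finitely generated.
-/

namespace Pool.Agent.H775R3.CoHopf

open Finsupp

/-- exponent map for `HH` -/
abbrev nuH : Multiplicative ℤ →* Multiplicative ℤ := MonoidHom.id _

/-- sign map for `HH` -/
noncomputable abbrev sgH : Multiplicative ℤ →* (ZMod 3)ˣ := zpowersHom (ZMod 3)ˣ (-1)

/-- the co-hopfian group -/
abbrev HH := Ext (Multiplicative ℤ) nuH sgH

theorem zmod2_ne_zero {x : ZMod 2} (h : x ≠ 0) : x = 1 := by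
  revert h; revert x; decide

theorem zmod2_add_self (x : ZMod 2) : x + x = 0 := by
  revert x; decide

theorem f_add_self (f : ℤ →₀ ZMod 2) : f + f = 0 := by
  ext i
  simp only [Finsupp.add_apply, Finsupp.zero_apply]
  exact zmod2_add_self _

/-- the stable letter powers -/
noncomputable def tt : Multiplicative ℤ →* HH :=
  MonoidHom.mk' (fun n => ⟨n, 0, 0, 0⟩) (by
    intro m n
    ext1
    · simp
    · simp
    · simp [bt_zero_left]
    · simp)

theorem tt_apply (n : Multiplicative ℤ) : tt n = ⟨n, 0, 0, 0⟩ := rfl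

/-- the basic involution -/
noncomputable def aa : HH := ⟨1, single 0 1, 0, 0⟩

/-- central elements -/
noncomputable def zz (b : ZMod 2) : HH := ⟨1, 0, b, 0⟩

/-- the elements of the normal subgroup of order three -/
noncomputable def yy (b : ZMod 3) : HH := ⟨1, 0, 0, b⟩

theorem zz_zero : zz 0 = 1 := rfl
theorem yy_zero : yy 0 = 1 := rfl

theorem zz_inj {b c : ZMod 2} (h : zz b = zz c) : b = c := congrArg Ext.c h

theorem mul_of_p_one {x x' : HH} (hx : x.p = 1) :
    x * x' = ⟨x'.p, x.f + x'.f, x.c + x'.c + bt x.f x'.f, x.y + x'.y⟩ := by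
  ext1
  · simp [hx]
  · simp [hx, sh_zero]
  · simp [hx, sh_zero]
  · simp [hx]

theorem pow12 {x : HH} (hx : x.p = 1) : x ^ 12 = 1 := by
  have h2 : x * x = ⟨1, 0, bt x.f x.f, x.y + x.y⟩ := by
    rw [mul_of_p_one hx, f_add_self, zmod2_add_self, zero_add, hx]
  have h4 : (x * x) * (x * x) = ⟨1, 0, 0, (x.y + x.y) + (x.y + x.y)⟩ := by
    rw [h2, mul_of_p_one rfl]
    simp only [zmod2_add_self, bt_zero_left, add_zero]
  have h12 : x ^ 12 = ((x * x) * (x * x)) * (((x * x) * (x * x)) * ((x * x) * (x * x))) := by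
    simp only [← pow_two, ← pow_mul, ← pow_add]
    norm_num
  rw [h12, h4, mul_of_p_one rfl, mul_of_p_one rfl]
  simp only [bt_zero_left, add_zero]
  have : ∀ y : ZMod 3, y + y + (y + y) + (y + y + (y + y) + (y + y + (y + y))) = 0 := by decide
  rw [this]
  rfl

theorem p_pow (x : HH) (n : ℕ) : (x ^ n).p = x.p ^ n := by
  induction n with
  | zero => simp
  | succ n ih => rw [pow_succ, Ext.mul_p, ih, pow_succ]

theorem p_zpow (x : HH) (n : ℤ) : (x ^ n).p = x.p ^ n := by
  cases n with
  | ofNat n => simp [p_pow]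
  | negSucc n => simp [p_pow]

theorem conj_f (x a : HH) (ha : a.p = 1) : (x * a * x⁻¹).f = sh (x.p.toAdd) a.f := by
  simp only [Ext.mul_f, Ext.mul_p, ha, mul_one, Ext.inv_f, MonoidHom.id_apply]
  rw [map_neg, sh_sh_neg]
  abel

theorem conj_p (x a : HH) (ha : a.p = 1) : (x * a * x⁻¹).p = 1 := by
  simp [ha]

theorem comm_rel {x x' : HH} (hx : x.p = 1) (hx' : x'.p = 1) :
    x * x' = zz (bt x.f x'.f + bt x'.f x.f) * (x' * x) := by
  rw [mul_of_p_one hx, mul_of_p_one hx', zz, mul_of_p_one rfl]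
  ext1
  · simp [hx, hx']
  · simp [add_comm]
  · simp only [bt_zero_left, add_zero]
    have h1 := zmod2_add_self (bt x'.f x.f)
    linear_combination -h1
  · simp [add_comm]

theorem bt_sh_left (n : ℤ) (F G : ℤ →₀ ZMod 2) :
    bt (sh n F) G = F.sum fun i a => G.sum fun j b => a * b * lam (n + i - j) := by
  unfold bt sh
  rw [Finsupp.mapDomain.addMonoidHom_apply, Finsupp.sum_mapDomain_index]
  · intro i; simp
  · intro i a a'
    rw [← Finsupp.sum_add]
    apply Finsupp.sum_congr
    intro j _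
    ring

theorem bt_sh_right (n : ℤ) (F G : ℤ →₀ ZMod 2) :
    bt G (sh n F) = F.sum fun i a => G.sum fun j b => a * b * lam (-(n + i - j)) := by
  unfold bt sh
  rw [Finsupp.mapDomain.addMonoidHom_apply]
  have h1 : (G.sum fun j b => (Finsupp.mapDomain (fun i => n + i) F).sum fun i a => b * a * lam (j - i))
      = G.sum fun j b => F.sum fun i a => a * b * lam (-(n + i - j)) := by
    apply Finsupp.sum_congr
    intro j _
    rw [Finsupp.sum_mapDomain_index]
    · apply Finsupp.sum_congr
      intro i _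
      rw [mul_comm (G j) (F i)]
      congr 2
      ring
    · intro i; simp
    · intro i a a'; ring
  rw [h1, Finsupp.sum_comm]

theorem bt_symm_sum (n : ℤ) (F : ℤ →₀ ZMod 2) :
    bt (sh n F) F + bt F (sh n F) = F.sum fun i a => F.sum fun j b => a * b * om (n + i - j) := by
  rw [bt_sh_left, bt_sh_right, ← Finsupp.sum_add]
  apply Finsupp.sum_congr
  intro i _
  rw [← Finsupp.sum_add]
  apply Finsupp.sum_congr
  intro j _
  unfold om
  ring

/-- A criterion for a subgroup of `HH` to be everything. -/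
theorem eq_top_of (R : Subgroup HH) (hz : zz 1 ∈ R) (hy : yy 1 ∈ R) (T A : HH) (hT : T ∈ R)
    (hA : A ∈ R) (m e : ℤ) (hm : m = 1 ∨ m = -1) (hTp : T.p = Multiplicative.ofAdd m)
    (hAp : A.p = 1) (hAf : A.f = single e 1) : R = ⊤ := by
  have hmm : m * m = 1 := by rcases hm with rfl | rfl <;> norm_num
  have hzb : ∀ b, zz b ∈ R := by
    intro b
    by_cases hb : b = 0
    · subst hb; rw [zz_zero]; exact R.one_mem
    · rw [zmod2_ne_zero hb]; exact hz
  have hyb : ∀ b, yy b ∈ R := by
    intro b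
    have h3 : b = 0 ∨ b = 1 ∨ b = 1 + 1 := by revert b; decide
    rcases h3 with rfl | rfl | rfl
    · rw [yy_zero]; exact R.one_mem
    · exact hy
    · have : yy (1 + 1) = yy 1 * yy 1 := by
        rw [yy, mul_of_p_one rfl]
        simp only [yy, add_zero, bt_zero_left]
      rw [this]
      exact R.mul_mem hy hy
  have hcy : ∀ X : HH, X ∈ R → ∀ c y, (⟨X.p, X.f, c, y⟩ : HH) ∈ R := by
    intro X hX c y
    have : (⟨X.p, X.f, c, y⟩ : HH) = zz (c - X.c) * (yy (y - X.y) * X) := by
      rw [mul_of_p_one (x := yy (y - X.y)) rfl, mul_of_p_one (x := zz (c - X.c)) rfl]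
      simp only [yy, zz, bt_zero_left]
      ext1 <;> simp
    rw [this]
    exact R.mul_mem (hzb _) (R.mul_mem (hyb _) hX)
  have hQ1 : ∀ f : ℤ →₀ ZMod 2, ∃ X ∈ R, X.p = 1 ∧ X.f = f := by
    intro f
    induction f using Finsupp.induction_linear with
    | zero => exact ⟨1, R.one_mem, rfl, rfl⟩
    | add f g hf hg =>
      obtain ⟨X, hX, hX1, hX2⟩ := hf
      obtain ⟨Y, hY, hY1, hY2⟩ := hg
      refine ⟨X * Y, R.mul_mem hX hY, by simp [hX1, hY1], ?_⟩
      rw [mul_of_p_one hX1, hX2, hY2]
    | single k b =>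
      by_cases hb : b = 0
      · subst hb; exact ⟨1, R.one_mem, rfl, by simp⟩
      · rw [zmod2_ne_zero hb]
        have hTk : T ^ (m * (k - e)) ∈ R := R.zpow_mem hT _
        refine ⟨T ^ (m * (k - e)) * A * (T ^ (m * (k - e)))⁻¹,
          R.mul_mem (R.mul_mem hTk hA) (R.inv_mem hTk), conj_p _ _ hAp, ?_⟩
        rw [conj_f _ _ hAp, hAf, sh_single, p_zpow, hTp]
        congr 1
        simp only [← ofAdd_zsmul, toAdd_ofAdd, smul_eq_mul]
        have : m * (k - e) * m = (m * m) * (k - e) := by ring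
        rw [this, hmm]
        ring
  rw [eq_top_iff]
  rintro ⟨p, f, c, y⟩ -
  obtain ⟨n, hn⟩ : ∃ n : ℤ, p = Multiplicative.ofAdd n := ⟨p.toAdd, rfl⟩
  rw [hn]
  have hTk : T ^ (m * n) ∈ R := R.zpow_mem hT _
  obtain ⟨Y, hY, hY1, hY2⟩ := hQ1 (f - (T ^ (m * n)).f)
  have hX : Y * T ^ (m * n) ∈ R := R.mul_mem hY hTk
  have hXp : (Y * T ^ (m * n)).p = Multiplicative.ofAdd n := by
    rw [Ext.mul_p, hY1, one_mul, p_zpow, hTp, ← ofAdd_zsmul]
    congr 1
    rw [smul_eq_mul]
    have : m * n * m = (m * m) * n := by ring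
    rw [this, hmm, one_mul]
  have hXf : (Y * T ^ (m * n)).f = f := by
    rw [mul_of_p_one hY1]
    simp only [hY2]
    abel
  have := hcy _ hX c y
  rw [hXp, hXf] at this
  exact this

theorem HH_fg : Subgroup.closure ({tt (Multiplicative.ofAdd 1), aa, zz 1, yy 1} : Set HH) = ⊤ := by
  apply eq_top_of _ _ _ (tt (Multiplicative.ofAdd 1)) aa _ _ 1 0 (Or.inl rfl) rfl rfl rfl
  · apply Subgroup.subset_closure; simp
  · apply Subgroup.subset_closure; simp
  · apply Subgroup.subset_closure; simp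
  · apply Subgroup.subset_closure; simp

/-- Every injective endomorphism of `HH` is surjective. -/
theorem HH_cohopf (φ : HH →* HH) (hinj : Function.Injective φ) : Function.Surjective φ := by
  -- elements of exponent part zero stay there
  have hp1 : ∀ x : HH, x.p = 1 → (φ x).p = 1 := by
    intro x hx
    have h1 : (φ x) ^ 12 = 1 := by rw [← map_pow, pow12 hx, map_one]
    have h2 : (φ x).p ^ 12 = 1 := by rw [← p_pow, h1]; rfl
    have h3 : 12 * (φ x).p.toAdd = 0 := by
      have := congrArg Multiplicative.toAdd h2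
      simpa using this
    have h4 : (φ x).p.toAdd = 0 := by omega
    exact h4
  set T := φ (tt (Multiplicative.ofAdd 1)) with hT
  set A := φ aa with hA
  set m : ℤ := T.p.toAdd with hm
  have hTp : T.p = Multiplicative.ofAdd m := rfl
  have hAp : A.p = 1 := hp1 _ rfl
  -- the order three part
  have hY : ∃ y', y' ≠ 0 ∧ φ (yy 1) = yy y' := by
    have hYp : (φ (yy 1)).p = 1 := hp1 _ rfl
    have h3 : yy 1 * (yy 1 * yy 1) = 1 := by
      rw [mul_of_p_one (x := yy 1) (x' := yy 1) rfl, mul_of_p_one rfl]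
      simp only [yy, add_zero, bt_zero_left]
      rfl
    have h3' : φ (yy 1) * (φ (yy 1) * φ (yy 1)) = 1 := by
      rw [← map_mul, ← map_mul, h3, map_one]
    rw [mul_of_p_one (x' := φ (yy 1)) hYp, mul_of_p_one hYp] at h3'
    have hf := congrArg Ext.f h3'
    simp only [f_add_self, add_zero, Ext.one_f] at hf
    have hc := congrArg Ext.c h3'
    simp only [hf, bt_zero_left, add_zero, zmod2_add_self, Ext.one_c] at hc
    refine ⟨(φ (yy 1)).y, ?_, ?_⟩
    · intro hy
      have : φ (yy 1) = 1 := by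
        ext1
        · exact hYp
        · exact hf
        · exact hc
        · exact hy
      rw [← map_one φ] at this
      have := congrArg Ext.y (hinj this)
      simp only [yy, Ext.one_y] at this
      exact absurd this (by decide)
    · ext1
      · exact hYp
      · exact hf
      · exact hc
      · rfl
  obtain ⟨y', hy'0, hYe⟩ := hY
  have hodd : Odd m := by
    by_contra hev
    rw [Int.not_odd_iff_even] at hev
    have hrel : yy 1 * (tt (Multiplicative.ofAdd 1) * yy 1) = tt (Multiplicative.ofAdd 1) := by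
      rw [mul_of_p_one rfl]
      ext1
      · simp [tt_apply, yy]
      · simp [tt_apply, yy]
      · simp [tt_apply, yy, bt_zero_left]
      · simp [tt_apply, yy]
    have hrel' := congrArg φ hrel
    rw [map_mul, map_mul, hYe, ← hT, mul_of_p_one rfl] at hrel'
    have hy := congrArg Ext.y hrel'
    simp only [yy, Ext.mul_y, hTp] at hy
    have hsg : sgH (Multiplicative.ofAdd m) = 1 := by
      simp only [sgH, zpowersHom_apply, toAdd_ofAdd]
      exact Even.neg_one_zpow hev
    rw [hsg, Units.val_one, one_mul] at hy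
    have h2 : y' + y' = 0 := by linear_combination hy
    have h3 : ∀ w : ZMod 3, w + w = 0 → w = 0 := by decide
    exact hy'0 (h3 y' h2)
  -- the commutation relations
  have hu : ∀ k : ℤ, φ (zz (om k)) =
      zz (bt (sh (m * k) A.f) A.f + bt A.f (sh (m * k) A.f)) := by
    intro k
    set tk := tt (Multiplicative.ofAdd 1) ^ k with htk
    have h1 : (tk * aa * tk⁻¹).p = 1 := conj_p _ _ rfl
    have h2 : (tk * aa * tk⁻¹).f = single k 1 := by
      rw [conj_f _ _ rfl, htk, p_zpow, aa, sh_single]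
      congr 1
      simp [tt_apply]
    have h3 := comm_rel h1 (rfl : aa.p = 1)
    rw [h2] at h3
    have h4 : bt (single k 1) aa.f + bt aa.f (single k 1) = om k := by
      simp only [aa, bt_single]
      unfold om
      simp
    rw [h4] at h3
    have h5 := congrArg φ h3
    rw [map_mul, map_mul φ (zz (om k))] at h5
    have h6 : φ (tk * aa * tk⁻¹) = T ^ k * A * (T ^ k)⁻¹ := by
      rw [map_mul, map_mul, map_inv, htk, map_zpow]
    have h7 : (φ (tk * aa * tk⁻¹)).p = 1 := by rw [h6]; exact conj_p _ _ hAp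
    have h8 : (φ (tk * aa * tk⁻¹)).f = sh (m * k) A.f := by
      rw [h6, conj_f _ _ hAp, p_zpow, hTp]
      congr 1
      simp only [← ofAdd_zsmul, toAdd_ofAdd, smul_eq_mul]
      rw [mul_comm]
    have h9 := comm_rel h7 hAp
    rw [h8] at h9
    rw [h5, ← map_mul φ aa] at h9
    exact mul_right_cancel h9
  have hz1 : φ (zz 1) = zz 1 := by
    have h1 := hu (2 ^ 0)
    rw [om_pow] at h1
    set b := bt (sh (m * 2 ^ 0) A.f) A.f + bt A.f (sh (m * 2 ^ 0) A.f) with hb
    have hb0 : b ≠ 0 := by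
      intro h0
      rw [h0, zz_zero, ← map_one φ] at h1
      have := congrArg Ext.c (hinj h1)
      simp only [zz, Ext.one_c] at this
      exact one_ne_zero this
    rw [h1, zmod2_ne_zero hb0]
  have hz : ∀ b, φ (zz b) = zz b := by
    intro b
    by_cases hb : b = 0
    · subst hb; rw [zz_zero, map_one]
    · rw [zmod2_ne_zero hb, hz1]
  have hkey : ∀ k : ℤ,
      (A.f.sum fun i a => A.f.sum fun j b => a * b * om (m * k + i - j)) = om k := by
    intro k
    have h1 := hu k
    rw [hz] at h1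
    rw [← bt_symm_sum]
    exact (zz_inj h1).symm
  obtain ⟨hm1, e, he⟩ := main_comb A.f m hodd hkey
  have htop : φ.range = ⊤ := by
    apply eq_top_of φ.range ⟨zz 1, hz1⟩ _ T A ⟨_, rfl⟩ ⟨_, rfl⟩ m e hm1 hTp hAp he
    have h3 : ∀ w : ZMod 3, w ≠ 0 → w = 1 ∨ w = 1 + 1 := by decide
    rcases h3 y' hy'0 with h | h
    · exact ⟨yy 1, by rw [hYe, h]⟩
    · refine ⟨yy 1 * yy 1, ?_⟩
      rw [map_mul, hYe, h, yy, mul_of_p_one rfl]
      simp only [yy, add_zero, bt_zero_left]
      rfl
  exact MonoidHom.range_eq_top.mp htop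

end Pool.Agent.H775R3.CoHopf
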