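import Mathlib
import Pool.Agent.H775R3.CoHopfMain

set_option autoImplicit false

/-!
The overgroup `GG` of index two, the subsemigroup `TT` and their properties.
-/

namespace Pool.Agent.H775R3.CoHopf

open Finsupp

/-- the big group -/
abbrev GG := Ext (Multiplicative ℤ × (ZMod 3)ˣ) (MonoidHom.fst _ _) (MonoidHom.snd _ _)

/-- the character whose kernel is the small group -/
noncomputable def chi : GG →* (ZMod 3)ˣ :=
  MonoidHom.mk' (fun x => x.p.2 * (sgH x.p.1)⁻¹) (by
    intro x y
    simp only [Ext.mul_p, Prod.snd_mul, Prod.fst_mul, map_mul, mul_inv]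
    exact mul_mul_mul_comm _ _ _ _)

theorem chi_apply (x : GG) : chi x = x.p.2 * (sgH x.p.1)⁻¹ := rfl

/-- the small group as a subsemigroup -/
noncomputable def TT : Subsemigroup GG := chi.ker.toSubmonoid.toSubsemigroup

theorem mem_TT {x : GG} : x ∈ TT ↔ chi x = 1 := Iff.rfl

theorem unit_eq_of_ne {a b : (ZMod 3)ˣ} (ha : a ≠ 1) (hb : b ≠ 1) : a = b := by
  revert ha hb; revert a b; decide

theorem one_mem_TT : (1 : GG) ∈ TT := mem_TT.mpr (map_one _)

theorem inv_mul_mem {u v : GG} (hu : u ∉ TT) (hv : v ∉ TT) : u⁻¹ * v ∈ TT := by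
  rw [mem_TT] at *
  rw [map_mul, map_inv, unit_eq_of_ne hu hv, inv_mul_cancel]

theorem mul_inv_mem {u v : GG} (hu : u ∉ TT) (hv : v ∉ TT) : u * v⁻¹ ∈ TT := by
  rw [mem_TT] at *
  rw [map_mul, map_inv, unit_eq_of_ne hu hv, mul_inv_cancel]

theorem mul_not_mem {u t : GG} (hu : u ∉ TT) (ht : t ∈ TT) : u * t ∉ TT := by
  rw [mem_TT] at *
  rw [map_mul, ht, mul_one]
  exact hu

theorem mul_not_mem' {u t : GG} (hu : u ∉ TT) (ht : t ∈ TT) : t * u ∉ TT := by
  rw [mem_TT] at *
  rw [map_mul, ht, one_mul]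
  exact hu

/-- an element outside `TT` -/
noncomputable def g0 : GG := ⟨(1, -1), 0, 0, 0⟩

theorem g0_not_mem : g0 ∉ TT := by
  rw [mem_TT, chi_apply]
  simp only [g0, map_one, inv_one, mul_one]
  decide

/-- the identification of `HH` with `TT` -/
noncomputable def eqv : HH ≃* TT where
  toFun x := ⟨⟨(x.p, sgH x.p), x.f, x.c, x.y⟩, by rw [mem_TT, chi_apply]; simp⟩
  invFun x := ⟨x.1.p.1, x.1.f, x.1.c, x.1.y⟩
  left_inv x := rfl
  right_inv x := by
    apply Subtype.ext
    have h : chi x.1 = 1 := mem_TT.mp x.2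
    rw [chi_apply, mul_inv_eq_one] at h
    ext1
    · exact Prod.ext rfl h.symm
    · rfl
    · rfl
    · rfl
  map_mul' x y := by
    apply Subtype.ext
    ext1
    · exact Prod.ext rfl (map_mul sgH x.p y.p)
    · rfl
    · rfl
    · rfl

theorem TT_cohopf (f : TT →ₙ* TT) (hf : Function.Injective f) : Function.Surjective f := by
  let φ : HH →* HH := MonoidHom.mk' (fun x => eqv.symm (f (eqv x))) (by
    intro x y
    rw [map_mul eqv, map_mul f, map_mul eqv.symm])
  have hφ : Function.Injective φ := by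
    intro x y h
    exact eqv.injective (hf (eqv.symm.injective h))
  have hs := HH_cohopf φ hφ
  intro y
  obtain ⟨x, hx⟩ := hs (eqv.symm y)
  exact ⟨eqv x, eqv.symm.injective hx⟩

theorem TT_fg : ∃ A : Finset GG, Subsemigroup.closure (A : Set GG) = TT := by
  classical
  let X : Set HH := {tt (Multiplicative.ofAdd 1), aa, zz 1, yy 1}
  have hXfin : X.Finite := Set.toFinite _
  have hX : Subgroup.closure X = ⊤ := HH_fg
  have h1 : Submonoid.closure (X ∪ X⁻¹) = ⊤ := by
    rw [← Subgroup.closure_toSubmonoid, hX]; rfl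
  have h2 : Subsemigroup.closure (X ∪ X⁻¹) = (⊤ : Subsemigroup HH) := by
    rw [eq_top_iff]
    intro x _
    have hx : x ∈ Submonoid.closure (X ∪ X⁻¹) := by rw [h1]; trivial
    have hmem : aa ∈ Subsemigroup.closure (X ∪ X⁻¹) := by
      apply Subsemigroup.subset_closure; left; simp [X]
    have hmem' : aa⁻¹ ∈ Subsemigroup.closure (X ∪ X⁻¹) := by
      apply Subsemigroup.subset_closure; right; simp [X]
    have hone : (1 : HH) ∈ Subsemigroup.closure (X ∪ X⁻¹) := by
      rw [← mul_inv_cancel aa]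
      exact Subsemigroup.mul_mem _ hmem hmem'
    induction hx using Submonoid.closure_induction with
    | mem x hx => exact Subsemigroup.subset_closure hx
    | one => exact hone
    | mul x y _ _ hx hy => exact Subsemigroup.mul_mem _ (hx trivial) (hy trivial)
  let j : HH →ₙ* GG := ⟨fun x => (eqv x).1, by intro x y; rw [map_mul]; rfl⟩
  have h3 : (Subsemigroup.closure (X ∪ X⁻¹)).map j = TT := by
    rw [h2]
    ext x
    constructor
    · rintro ⟨y, -, rfl⟩
      exact (eqv y).2
    · intro hx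
      exact ⟨eqv.symm ⟨x, hx⟩, trivial, by
        show (eqv (eqv.symm ⟨x, hx⟩)).1 = x
        rw [MulEquiv.apply_symm_apply]⟩
  have hfin : (j '' (X ∪ X⁻¹)).Finite := (hXfin.union hXfin.inv).image _
  refine ⟨hfin.toFinset, ?_⟩
  rw [Set.Finite.coe_toFinset, ← MulHom.map_mclosure, h3]

/-- The doubling endomorphism of the big group. -/
noncomputable def dd : GG →* GG :=
  MonoidHom.mk' (fun x => ⟨(x.p.1 ^ 2, x.p.2), dbl x.f, x.c, x.y⟩) (by
    intro x y
    ext1
    · simp only [Ext.mul_p, Prod.fst_mul, Prod.snd_mul, mul_pow]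
      rfl
    · simp only [Ext.mul_f, MonoidHom.coe_fst, map_add, dbl_sh, toAdd_pow]
      simp
    · simp only [Ext.mul_c, MonoidHom.coe_fst, toAdd_pow]
      have h : (2 • Multiplicative.toAdd x.p.1 : ℤ) = 2 * Multiplicative.toAdd x.p.1 := by simp
      rw [h, ← dbl_sh, bt_dbl]
    · simp)

theorem dd_injective : Function.Injective dd := by
  intro x y h
  have h1 := congrArg Ext.p h
  have h2 := congrArg Ext.f h
  have h3 := congrArg Ext.c h
  have h4 := congrArg Ext.y h
  have h1a : x.p.1 ^ 2 = y.p.1 ^ 2 := congrArg (fun g : GG => g.p.1) h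
  have h1b' : (dd x).p.2 = (dd y).p.2 := congrArg (fun g : GG => g.p.2) h
  have h1b : x.p.2 = y.p.2 := h1b'
  have h1c : x.p.1 = y.p.1 := by
    have h5 := congrArg Multiplicative.toAdd h1a
    simp only [toAdd_pow] at h5
    have h6 : Multiplicative.toAdd x.p.1 = Multiplicative.toAdd y.p.1 := by
      simpa using h5
    exact h6
  ext1
  · exact Prod.ext h1c h1b
  · exact dbl_injective h2
  · exact h3
  · exact h4

theorem dd_not_surjective : ¬ Function.Surjective dd := by
  intro hs
  obtain ⟨x, hx⟩ := hs ⟨(Multiplicative.ofAdd 1, 1), 0, 0, 0⟩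
  have h1 := congrArg (fun g : GG => Multiplicative.toAdd g.p.1) hx
  have h2 : Multiplicative.toAdd (x.p.1 ^ 2) = 1 := h1
  simp only [toAdd_pow] at h2
  have h3 : (2 : ℤ) * Multiplicative.toAdd x.p.1 = 1 := by simpa using h2
  omega

end Pool.Agent.H775R3.CoHopf
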