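import Mathlib

set_option autoImplicit false

/-!
A nilpotent group of class three whose semigroup variety contains an infinite two-generated
nil semigroup.
-/

namespace Pool.Agent.H775R3.NilPer

/-- The filiform group: translations of the line together with quadratic cocycles. -/
@[ext]
structure Fil where
  d : ℝ
  c0 : ℝ
  c1 : ℝ
  c2 : ℝ

namespace Fil

noncomputable instance : Mul Fil :=
  ⟨fun x y => ⟨x.d + y.d, x.c0 + y.c0 + y.c1 * x.d + y.c2 * x.d ^ 2,
    x.c1 + y.c1 + 2 * y.c2 * x.d, x.c2 + y.c2⟩⟩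

noncomputable instance : One Fil := ⟨⟨0, 0, 0, 0⟩⟩

noncomputable instance : Inv Fil :=
  ⟨fun x => ⟨-x.d, -x.c0 + x.c1 * x.d - x.c2 * x.d ^ 2, -x.c1 + 2 * x.c2 * x.d, -x.c2⟩⟩

@[simp] theorem mul_d (x y : Fil) : (x * y).d = x.d + y.d := rfl
@[simp] theorem mul_c0 (x y : Fil) :
    (x * y).c0 = x.c0 + y.c0 + y.c1 * x.d + y.c2 * x.d ^ 2 := rfl
@[simp] theorem mul_c1 (x y : Fil) : (x * y).c1 = x.c1 + y.c1 + 2 * y.c2 * x.d := rfl
@[simp] theorem mul_c2 (x y : Fil) : (x * y).c2 = x.c2 + y.c2 := rfl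
@[simp] theorem one_d : (1 : Fil).d = 0 := rfl
@[simp] theorem one_c0 : (1 : Fil).c0 = 0 := rfl
@[simp] theorem one_c1 : (1 : Fil).c1 = 0 := rfl
@[simp] theorem one_c2 : (1 : Fil).c2 = 0 := rfl
@[simp] theorem inv_d (x : Fil) : (x⁻¹).d = -x.d := rfl
@[simp] theorem inv_c0 (x : Fil) : (x⁻¹).c0 = -x.c0 + x.c1 * x.d - x.c2 * x.d ^ 2 := rfl
@[simp] theorem inv_c1 (x : Fil) : (x⁻¹).c1 = -x.c1 + 2 * x.c2 * x.d := rfl
@[simp] theorem inv_c2 (x : Fil) : (x⁻¹).c2 = -x.c2 := rfl

noncomputable instance : Group Fil :=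
  Group.ofLeftAxioms
    (by intro x y z; ext <;> simp <;> ring)
    (by intro x; ext <;> simp)
    (by intro x; ext <;> simp; ring)

end Fil

/-- The Heisenberg quotient. -/
@[ext]
structure Hei where
  d : ℝ
  c1 : ℝ
  c2 : ℝ

namespace Hei

noncomputable instance : Mul Hei :=
  ⟨fun x y => ⟨x.d + y.d, x.c1 + y.c1 + 2 * y.c2 * x.d, x.c2 + y.c2⟩⟩

noncomputable instance : One Hei := ⟨⟨0, 0, 0⟩⟩

noncomputable instance : Inv Hei :=
  ⟨fun x => ⟨-x.d, -x.c1 + 2 * x.c2 * x.d, -x.c2⟩⟩

@[simp] theorem mul_d (x y : Hei) : (x * y).d = x.d + y.d := rfl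
@[simp] theorem mul_c1 (x y : Hei) : (x * y).c1 = x.c1 + y.c1 + 2 * y.c2 * x.d := rfl
@[simp] theorem mul_c2 (x y : Hei) : (x * y).c2 = x.c2 + y.c2 := rfl
@[simp] theorem one_d : (1 : Hei).d = 0 := rfl
@[simp] theorem one_c1 : (1 : Hei).c1 = 0 := rfl
@[simp] theorem one_c2 : (1 : Hei).c2 = 0 := rfl
@[simp] theorem inv_d (x : Hei) : (x⁻¹).d = -x.d := rfl
@[simp] theorem inv_c1 (x : Hei) : (x⁻¹).c1 = -x.c1 + 2 * x.c2 * x.d := rfl
@[simp] theorem inv_c2 (x : Hei) : (x⁻¹).c2 = -x.c2 := rfl

noncomputable instance : Group Hei :=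
  Group.ofLeftAxioms
    (by intro x y z; ext <;> simp <;> ring)
    (by intro x; ext <;> simp)
    (by intro x; ext <;> simp)

end Hei

theorem hei_nilpotent : Group.IsNilpotent Hei := by
  let f : Hei →* Multiplicative (ℝ × ℝ) :=
    MonoidHom.mk' (fun x => Multiplicative.ofAdd (x.d, x.c2)) (by intro x y; rfl)
  apply Subgroup.isNilpotent_of_ker_le_center f
  · intro x hx
    have h : (x.d, x.c2) = ((0 : ℝ), (0 : ℝ)) := hx
    have h1 : x.d = 0 := congrArg Prod.fst h
    have h2 : x.c2 = 0 := congrArg Prod.snd h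
    rw [Subgroup.mem_center_iff]
    intro g
    ext
    · simp [h1]
    · simp [h1, h2]; ring
    · simp [h2]

theorem fil_nilpotent : Group.IsNilpotent Fil := by
  let f : Fil →* Hei :=
    MonoidHom.mk' (fun x => ⟨x.d, x.c1, x.c2⟩) (by intro x y; rfl)
  haveI := hei_nilpotent
  apply Subgroup.isNilpotent_of_ker_le_center f
  · intro x hx
    have h : (⟨x.d, x.c1, x.c2⟩ : Hei) = ⟨0, 0, 0⟩ := hx
    have h1 : x.d = 0 := congrArg Hei.d h
    have h2 : x.c1 = 0 := congrArg Hei.c1 h
    have h3 : x.c2 = 0 := congrArg Hei.c2 h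
    rw [Subgroup.mem_center_iff]
    intro g
    ext
    · simp [h1]
    · simp [h1, h2, h3]; ring
    · simp [h1, h2, h3]
    · simp [h3]

/-- step of a letter -/
noncomputable def dl (α : ℝ) (x : Bool) : ℝ := if x then 1 - α else -α

/-- the sum of squared heights along a word started at height `h` -/
noncomputable def TT (α : ℝ) : ℝ → List Bool → ℝ
  | _, [] => 0
  | h, x :: l => (h + dl α x) ^ 2 + TT α (h + dl α x) l

/-- the trajectory started at height `h` stays in the open window of width one -/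
def WW (α : ℝ) : ℝ → List Bool → Prop
  | h, [] => |h| < 1 / 2
  | h, x :: l => |h| < 1 / 2 ∧ WW α (h + dl α x) l

/-- total height -/
noncomputable def hh (α : ℝ) : List Bool → ℝ
  | [] => 0
  | x :: l => dl α x + hh α l

theorem WW.abs_lt {α h : ℝ} {l : List Bool} (hw : WW α h l) : |h| < 1 / 2 := by
  cases l with
  | nil => exact hw
  | cons x l => exact hw.1

theorem sq_le_of_int {h : ℝ} (hh : |h| < 1 / 2) (n : ℤ) : h ^ 2 ≤ (h + n) ^ 2 := by
  have h1 := abs_lt.mp hh
  rcases lt_trichotomy n 0 with hn | hn | hn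
  · have : (n : ℝ) ≤ -1 := by exact_mod_cast (by omega : n ≤ -1)
    nlinarith
  · subst hn; simp
  · have : (1 : ℝ) ≤ n := by exact_mod_cast hn
    nlinarith

theorem eq_zero_of_sq_eq {h : ℝ} (hh : |h| < 1 / 2) (n : ℤ) (he : (h + n) ^ 2 ≤ h ^ 2) : n = 0 := by
  have h1 := abs_lt.mp hh
  rcases lt_trichotomy n 0 with hn | hn | hn
  · have : (n : ℝ) ≤ -1 := by exact_mod_cast (by omega : n ≤ -1)
    nlinarith
  · exact hn
  · have : (1 : ℝ) ≤ n := by exact_mod_cast hn
    nlinarith

theorem dl_sub (α : ℝ) (x y : Bool) : ∃ n : ℤ, dl α y = dl α x + n ∧ (n = 0 → x = y) := by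
  cases x <;> cases y
  · exact ⟨0, by simp, fun _ => rfl⟩
  · refine ⟨1, ?_, fun h => absurd h (by norm_num)⟩
    simp [dl]; ring
  · refine ⟨-1, ?_, fun h => absurd h (by norm_num)⟩
    simp [dl]; ring
  · exact ⟨0, by simp, fun _ => rfl⟩

theorem TT_le (α : ℝ) : ∀ (u v : List Bool), u.length = v.length → ∀ (h : ℝ) (n : ℤ),
    WW α h u → TT α h u ≤ TT α (h + n) v := by
  intro u
  induction u with
  | nil =>
    intro v hv h n _
    cases v with
    | nil => simp [TT]
    | cons y v => simp at hv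
  | cons x u ih =>
    intro v hv h n hw
    cases v with
    | nil => simp at hv
    | cons y v =>
      simp only [List.length_cons, add_left_inj] at hv
      obtain ⟨k, hk, -⟩ := dl_sub α x y
      have hw' := hw.2
      have h1 := ih v hv (h + dl α x) (n + k) hw'
      have h2 := sq_le_of_int hw'.abs_lt (n + k)
      have h3 : h + (n : ℝ) + dl α y = h + dl α x + ((n + k : ℤ) : ℝ) := by
        rw [hk]; push_cast; ring
      simp only [TT]
      rw [h3]
      linarith

theorem TT_eq (α : ℝ) : ∀ (u v : List Bool), u.length = v.length → ∀ (h : ℝ),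
    WW α h u → TT α h u = TT α h v → u = v := by
  intro u
  induction u with
  | nil =>
    intro v hv h _ _
    cases v with
    | nil => rfl
    | cons y v => simp at hv
  | cons x u ih =>
    intro v hv h hw he
    cases v with
    | nil => simp at hv
    | cons y v =>
      simp only [List.length_cons, add_left_inj] at hv
      obtain ⟨k, hk, hk0⟩ := dl_sub α x y
      have hw' := hw.2
      have h1 := TT_le α u v hv (h + dl α x) k hw'
      have h2 := sq_le_of_int hw'.abs_lt k
      have h3 : h + dl α y = h + dl α x + (k : ℝ) := by rw [hk]; ring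
      simp only [TT] at he
      rw [h3] at he
      have h4 : k = 0 := eq_zero_of_sq_eq hw'.abs_lt k (by linarith)
      subst h4
      have h5 := hk0 rfl
      subst h5
      simp only [Int.cast_zero, add_zero, add_right_inj] at he
      rw [ih v hv _ hw' he]

theorem WW_append_left (α : ℝ) : ∀ (u v : List Bool) (h : ℝ), WW α h (u ++ v) → WW α h u := by
  intro u
  induction u with
  | nil => intro v h hw; exact hw.abs_lt
  | cons x u ih =>
    intro v h hw
    exact ⟨hw.1, ih v _ hw.2⟩

theorem WW_append_right (α : ℝ) : ∀ (u v : List Bool) (h : ℝ), WW α h (u ++ v) →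
    WW α (h + hh α u) v := by
  intro u
  induction u with
  | nil => intro v h hw; simpa [hh] using hw
  | cons x u ih =>
    intro v h hw
    have := ih v _ hw.2
    rw [add_assoc] at this
    exact this

theorem hh_append (α : ℝ) (u v : List Bool) : hh α (u ++ v) = hh α u + hh α v := by
  induction u with
  | nil => simp [hh]
  | cons x u ih => simp [hh, ih]; ring

theorem hh_eq (α : ℝ) (u : List Bool) : ∃ p : ℤ, hh α u = p - u.length * α := by
  induction u with
  | nil => exact ⟨0, by simp [hh]⟩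
  | cons x u ih =>
    obtain ⟨p, hp⟩ := ih
    cases x
    · refine ⟨p, ?_⟩
      simp [hh, hp, dl]; ring
    · refine ⟨p + 1, ?_⟩
      simp [hh, hp, dl]; ring

theorem hh_ne_zero {α : ℝ} (hα : Irrational α) {u : List Bool} (hu : u ≠ []) : hh α u ≠ 0 := by
  obtain ⟨p, hp⟩ := hh_eq α u
  intro h0
  rw [hp] at h0
  have hl : (u.length : ℝ) ≠ 0 := by
    have : u.length ≠ 0 := by simpa using hu
    exact_mod_cast this
  apply hα
  refine ⟨(p : ℚ) / (u.length : ℚ), ?_⟩
  push_cast
  field_simp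
  linarith

/-- words of every length with trajectory in the window -/
theorem exists_word {α : ℝ} (hα : Irrational α) (h0 : 0 < α) (h1 : α < 1) :
    ∀ N : ℕ, ∃ u : List Bool, u.length = N ∧ WW α 0 u ∧ |hh α u| < 1 / 2 := by
  intro N
  induction N with
  | zero => exact ⟨[], rfl, by simp [WW], by simp [hh]⟩
  | succ N ih =>
    obtain ⟨u, hu, hw, hb⟩ := ih
    have hsnoc : ∀ (u : List Bool) (x : Bool) (h : ℝ), WW α h u → |h + hh α u + dl α x| < 1 / 2 →
        WW α h (u ++ [x]) := by
      intro u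
      induction u with
      | nil =>
        intro x h hw hb
        simp only [hh, add_zero] at hb
        exact ⟨hw, hb⟩
      | cons y u ih =>
        intro x h hw hb
        refine ⟨hw.1, ih x _ hw.2 ?_⟩
        simp only [hh] at hb
        rw [← add_assoc] at hb
        exact hb
    have hb' := abs_lt.mp hb
    by_cases hc : hh α u - α > -(1 / 2)
    · refine ⟨u ++ [false], by simp [hu], hsnoc u false 0 hw ?_, ?_⟩
      · simp only [zero_add, dl]
        rw [abs_lt]
        constructor <;> simp <;> linarith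
      · rw [hh_append]
        simp only [hh, dl]
        rw [abs_lt]
        constructor <;> simp <;> linarith
    · push Not at hc
      have hne : hh α u - α ≠ -(1 / 2) := by
        obtain ⟨p, hp⟩ := hh_eq α u
        intro he
        apply hα
        refine ⟨((p : ℚ) + 1 / 2) / ((u.length : ℚ) + 1), ?_⟩
        push_cast
        have : ((u.length : ℝ) + 1) ≠ 0 := by positivity
        field_simp
        rw [hp] at he
        linarith
      have hlt : hh α u - α < -(1 / 2) := lt_of_le_of_ne hc hne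
      refine ⟨u ++ [true], by simp [hu], hsnoc u true 0 hw ?_, ?_⟩
      · simp only [zero_add, dl]
        rw [abs_lt]
        constructor <;> simp <;> linarith
      · rw [hh_append]
        simp only [hh, dl]
        rw [abs_lt]
        constructor <;> simp <;> linarith

/-- underlying list of an element of the free semigroup -/
def tl (u : FreeSemigroup Bool) : List Bool := u.head :: u.tail

theorem tl_mul (u v : FreeSemigroup Bool) : tl (u * v) = tl u ++ tl v := rfl

theorem tl_inj {u v : FreeSemigroup Bool} (h : tl u = tl v) : u = v := by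
  cases u; cases v
  simp only [tl, List.cons.injEq] at h
  rw [h.1, h.2]

theorem tl_ne_nil (u : FreeSemigroup Bool) : tl u ≠ [] := by simp [tl]

/-- allowed words -/
def FF (α : ℝ) (u : FreeSemigroup Bool) : Prop := ∃ h, WW α h (tl u)

theorem FF_left {α : ℝ} {u v : FreeSemigroup Bool} (h : FF α (u * v)) : FF α u := by
  obtain ⟨h, hw⟩ := h
  exact ⟨h, WW_append_left α _ _ _ hw⟩

theorem FF_right {α : ℝ} {u v : FreeSemigroup Bool} (h : FF α (u * v)) : FF α v := by
  obtain ⟨h, hw⟩ := h
  rw [tl_mul] at hw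
  exact ⟨_, WW_append_right α _ _ _ hw⟩

/-- the Rees congruence -/
def con (α : ℝ) : Con (FreeSemigroup Bool) where
  r u v := u = v ∨ (¬ FF α u ∧ ¬ FF α v)
  iseqv := by
    refine ⟨fun u => Or.inl rfl, ?_, ?_⟩
    · rintro u v (h | h)
      · exact Or.inl h.symm
      · exact Or.inr ⟨h.2, h.1⟩
    · rintro u v w (rfl | h) (rfl | h')
      · exact Or.inl rfl
      · exact Or.inr h'
      · exact Or.inr h
      · exact Or.inr ⟨h.1, h'.2⟩
  mul' := by
    rintro u u' v v' (rfl | h) (rfl | h')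
    · exact Or.inl rfl
    · exact Or.inr ⟨fun hf => h'.1 (FF_right hf), fun hf => h'.2 (FF_right hf)⟩
    · exact Or.inr ⟨fun hf => h.1 (FF_left hf), fun hf => h.2 (FF_left hf)⟩
    · exact Or.inr ⟨fun hf => h.1 (FF_left hf), fun hf => h.2 (FF_left hf)⟩

/-- the nil semigroup -/
abbrev SS (α : ℝ) := (con α).Quotient

/-- the homomorphism to the filiform group -/
noncomputable def gl (α : ℝ) (x : Bool) : Fil := ⟨dl α x, dl α x ^ 2, 2 * dl α x, 1⟩

theorem lift_gl (α : ℝ) (u : FreeSemigroup Bool) :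
    (FreeSemigroup.lift (gl α) u).c2 = (tl u).length ∧
    ∀ h, TT α h (tl u) = (FreeSemigroup.lift (gl α) u).c0
      + (FreeSemigroup.lift (gl α) u).c1 * h + (FreeSemigroup.lift (gl α) u).c2 * h ^ 2 ∧
      (FreeSemigroup.lift (gl α) u).d = hh α (tl u) := by
  induction u using FreeSemigroup.recOnMul with
  | ih1 x =>
    refine ⟨by simp [gl, tl], fun h => ⟨?_, ?_⟩⟩
    · simp [gl, tl, TT]; ring
    · simp [gl, tl, hh]
  | ih2 x u _ ih =>
    obtain ⟨ih1, ih2⟩ := ih
    refine ⟨?_, fun h => ⟨?_, ?_⟩⟩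
    · rw [map_mul, Fil.mul_c2, ih1, tl_mul]
      simp [gl, tl]; ring
    · have h1 : tl (FreeSemigroup.of x * u) = x :: tl u := rfl
      rw [h1]
      simp only [TT]
      rw [(ih2 _).1, map_mul]
      simp only [FreeSemigroup.lift_of, Fil.mul_c0, Fil.mul_c1, Fil.mul_c2, gl]
      ring
    · have h1 : tl (FreeSemigroup.of x * u) = x :: tl u := rfl
      rw [h1, map_mul]
      simp only [FreeSemigroup.lift_of, Fil.mul_d, gl, hh]
      rw [(ih2 0).2]

theorem eq_of_lift_eq {α : ℝ} {u v : FreeSemigroup Bool} (hu : FF α u)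
    (h : FreeSemigroup.lift (gl α) u = FreeSemigroup.lift (gl α) v) : u = v := by
  obtain ⟨h0, hw⟩ := hu
  obtain ⟨hu1, hu2⟩ := lift_gl α u
  obtain ⟨hv1, hv2⟩ := lift_gl α v
  apply tl_inj
  apply TT_eq α _ _ _ h0 hw
  · rw [(hu2 h0).1, (hv2 h0).1, h]
  · rw [h, hv1] at hu1
    exact_mod_cast hu1.symm

theorem identities (α : ℝ) (n : ℕ) (u v : FreeSemigroup (Fin n))
    (h : ∀ f : Fin n → Fil, FreeSemigroup.lift f u = FreeSemigroup.lift f v)
    (g : Fin n → SS α) : FreeSemigroup.lift g u = FreeSemigroup.lift g v := by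
  have hsurj : ∀ i, ∃ w : FreeSemigroup Bool, ((w : SS α)) = g i := fun i =>
    Quotient.exists_rep (g i)
  choose σ hσ using hsurj
  have h1 : ∀ w : FreeSemigroup (Fin n),
      FreeSemigroup.lift g w = ((FreeSemigroup.lift σ w : FreeSemigroup Bool) : SS α) := by
    intro w
    induction w using FreeSemigroup.recOnMul with
    | ih1 x => simp [hσ]
    | ih2 x y ihx ihy => rw [map_mul, map_mul, ihx, ihy, Con.coe_mul]
  have h2 : ∀ w : FreeSemigroup (Fin n),
      FreeSemigroup.lift (fun i => FreeSemigroup.lift (gl α) (σ i)) w =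
        FreeSemigroup.lift (gl α) (FreeSemigroup.lift σ w) := by
    intro w
    induction w using FreeSemigroup.recOnMul with
    | ih1 x => simp
    | ih2 x y ihx ihy => rw [map_mul, map_mul, map_mul, ihx, ihy]
  have h3 := h (fun i => FreeSemigroup.lift (gl α) (σ i))
  rw [h2, h2] at h3
  rw [h1, h1]
  rw [Con.eq]
  show _ = _ ∨ _
  by_cases hu : FF α (FreeSemigroup.lift σ u)
  · exact Or.inl (eq_of_lift_eq hu h3)
  · by_cases hv : FF α (FreeSemigroup.lift σ v)
    · exact Or.inl (eq_of_lift_eq hv h3.symm).symm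
    · exact Or.inr ⟨hu, hv⟩

/-- powers in a semigroup, exponent shifted by one -/
def pw {M : Type} [Semigroup M] (u : M) : ℕ → M
  | 0 => u
  | n + 1 => pw u n * u

theorem pw_mul {M : Type} [Semigroup M] (u : M) (i j : ℕ) : pw u i * pw u j = pw u (i + j + 1) := by
  induction j with
  | zero => rfl
  | succ j ih => rw [pw, ← mul_assoc, ih]; rfl

theorem hh_pw (α : ℝ) (u : FreeSemigroup Bool) (n : ℕ) :
    hh α (tl (pw u n)) = (n + 1) * hh α (tl u) := by
  induction n with
  | zero => simp [pw]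
  | succ n ih => rw [pw, tl_mul, hh_append, ih]; push_cast; ring

theorem exists_not_FF {α : ℝ} (hα : Irrational α) (u : FreeSemigroup Bool) :
    ∃ k : ℕ, ∀ n, k ≤ n → ¬ FF α (pw u n) := by
  have hne := hh_ne_zero hα (tl_ne_nil u)
  obtain ⟨k, hk⟩ := exists_nat_gt (1 / |hh α (tl u)|)
  refine ⟨k, fun n hn hf => ?_⟩
  obtain ⟨h, hw⟩ := hf
  have h1 := hw.abs_lt
  have h2 : WW α (h + hh α (tl (pw u n))) [] := by
    apply WW_append_right α _ _ _
    rw [List.append_nil]
    exact hw
  have h3 : |h + hh α (tl (pw u n))| < 1 / 2 := h2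
  rw [hh_pw] at h3
  have h4 : |((n : ℝ) + 1) * hh α (tl u)| < 1 := by
    have h5 := abs_sub_abs_le_abs_sub (((n : ℝ) + 1) * hh α (tl u)) (-h)
    have h6 : ((n : ℝ) + 1) * hh α (tl u) - -h = h + ((n : ℝ) + 1) * hh α (tl u) := by ring
    rw [h6, abs_neg] at h5
    linarith
  rw [abs_mul, abs_of_pos (by positivity : (0 : ℝ) < (n : ℝ) + 1)] at h4
  have hpos : 0 < |hh α (tl u)| := abs_pos.mpr hne
  rw [div_lt_iff₀ hpos] at hk
  have hn' : (k : ℝ) ≤ n := by exact_mod_cast hn
  nlinarith

theorem periodic {α : ℝ} (hα : Irrational α) (s : SS α) :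
    (Subsemigroup.closure ({s} : Set (SS α)) : Set (SS α)).Finite := by
  obtain ⟨u, rfl⟩ : ∃ u : FreeSemigroup Bool, ((u : SS α)) = s := Quotient.exists_rep s
  obtain ⟨k, hk⟩ := exists_not_FF hα u
  have hcoe : ∀ n, ((pw u n : FreeSemigroup Bool) : SS α) = pw (u : SS α) n := by
    intro n
    induction n with
    | zero => rfl
    | succ n ih => rw [pw, pw, Con.coe_mul, ih]
  have hconst : ∀ n, k ≤ n → pw (u : SS α) n = pw (u : SS α) k := by
    intro n hn
    rw [← hcoe, ← hcoe, Con.eq]
    exact Or.inr ⟨hk n hn, hk k le_rfl⟩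
  have hsub : (Subsemigroup.closure ({(u : SS α)} : Set (SS α)) : Set (SS α)) ⊆
      (fun n => pw (u : SS α) n) '' (Set.Iic k) := by
    intro x hx
    have hx' : ∃ n, pw (u : SS α) n = x := by
      induction hx using Subsemigroup.closure_induction with
      | mem x hx => exact ⟨0, by rw [Set.mem_singleton_iff.mp hx]; rfl⟩
      | mul x y _ _ hx hy =>
        obtain ⟨i, rfl⟩ := hx
        obtain ⟨j, rfl⟩ := hy
        exact ⟨i + j + 1, (pw_mul _ _ _).symm⟩
    obtain ⟨n, rfl⟩ := hx'
    by_cases hn : n ≤ k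
    · exact ⟨n, hn, rfl⟩
    · exact ⟨k, Set.mem_Iic.mpr le_rfl, (hconst n (by omega)).symm⟩
  exact ((Set.finite_Iic k).image _).subset hsub

theorem not_locally_finite {α : ℝ} (hα : Irrational α) (h0 : 0 < α) (h1 : α < 1) :
    ¬ ∀ T : Finset (SS α), (Subsemigroup.closure (T : Set (SS α)) : Set (SS α)).Finite := by
  classical
  intro h
  have hfin := h {((FreeSemigroup.of true : FreeSemigroup Bool) : SS α),
    ((FreeSemigroup.of false : FreeSemigroup Bool) : SS α)}
  have hall : ∀ u : FreeSemigroup Bool, ((u : SS α)) ∈ Subsemigroup.closure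
      ((({((FreeSemigroup.of true : FreeSemigroup Bool) : SS α),
    ((FreeSemigroup.of false : FreeSemigroup Bool) : SS α)} : Finset (SS α))) : Set (SS α)) := by
    intro u
    induction u using FreeSemigroup.recOnMul with
    | ih1 x =>
      apply Subsemigroup.subset_closure
      cases x <;> simp
    | ih2 x y ihx ihy => rw [Con.coe_mul]; exact Subsemigroup.mul_mem _ ihx ihy
  choose w hw using exists_word hα h0 h1
  have hne : ∀ n, w (n + 1) ≠ [] := by
    intro n hc
    have := (hw (n + 1)).1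
    rw [hc] at this
    simp at this
  have hex : ∀ n, ∃ u : FreeSemigroup Bool, tl u = w (n + 1) := by
    intro n
    cases hl : w (n + 1) with
    | nil => exact absurd hl (hne n)
    | cons x l => exact ⟨⟨x, l⟩, rfl⟩
  choose U hU using hex
  have hinj : Function.Injective (fun n => ((U n : FreeSemigroup Bool) : SS α)) := by
    intro m n hmn
    have hmn' : ((U m : FreeSemigroup Bool) : SS α) = ((U n : FreeSemigroup Bool) : SS α) := hmn
    rw [Con.eq] at hmn'
    rcases hmn' with he | he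
    · have h2 : (tl (U m)).length = (tl (U n)).length := by rw [he]
      rw [hU, hU, (hw _).1, (hw _).1] at h2
      omega
    · exact absurd ⟨0, by rw [hU]; exact (hw _).2.1⟩ he.1
  have hinf : (Set.range (fun n => ((U n : FreeSemigroup Bool) : SS α))).Infinite :=
    Set.infinite_range_of_injective hinj
  apply hinf
  apply hfin.subset
  rintro _ ⟨n, rfl⟩
  exact hall _

end Pool.Agent.H775R3.NilPer
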