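import Mathlib

set_option autoImplicit false

/-!
# Free projection-generated regular *-semigroups

Definitions, and the regular `*`-semigroup attached to a group.
-/

namespace Pool.Agent.H775R3.PGen

universe u

/-- A regular `*`-semigroup: `a** = a = a a* a` and `(ab)* = b* a*`. -/
class RegStarSemigroup (S : Type u) extends Semigroup S where
  /-- the involution -/
  st : S → S
  st_st : ∀ a : S, st (st a) = a
  mul_st_mul : ∀ a : S, a * st a * a = a
  st_mul : ∀ a b : S, st (a * b) = st b * st a

/-- The projections of a regular `*`-semigroup: the elements `p` with `p² = p = p*`. -/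
def Proj (S : Type u) [RegStarSemigroup S] : Type u :=
  {p : S // p * p = p ∧ RegStarSemigroup.st p = p}

/-- The defining relations of the free projection-generated regular `*`-semigroup:
`x_p² = x_p`, `(x_p x_q)² = x_p x_q` and `x_p x_q x_p = x_{pqp}`. -/
inductive Rel (S : Type u) [RegStarSemigroup S] :
    FreeSemigroup (Proj S) → FreeSemigroup (Proj S) → Prop
  | idem (p : Proj S) : Rel S (FreeSemigroup.of p * FreeSemigroup.of p) (FreeSemigroup.of p)
  | sq (p q : Proj S) : Rel S
      ((FreeSemigroup.of p * FreeSemigroup.of q) * (FreeSemigroup.of p * FreeSemigroup.of q))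
      (FreeSemigroup.of p * FreeSemigroup.of q)
  | conj (p q r : Proj S) (h : r.1 = p.1 * q.1 * p.1) : Rel S
      (FreeSemigroup.of p * FreeSemigroup.of q * FreeSemigroup.of p) (FreeSemigroup.of r)

/-- The free projection-generated regular `*`-semigroup on the projection algebra of `S`, given by
its presentation. -/
abbrev PG (S : Type u) [RegStarSemigroup S] : Type u := (conGen (Rel S)).Quotient

/-- The generator `x_p`. -/
def gen {S : Type u} [RegStarSemigroup S] (p : Proj S) : PG S :=
  ((FreeSemigroup.of p : FreeSemigroup (Proj S)) : PG S)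

/-- Green's relation `R`. -/
def GreenR {M : Type u} [Semigroup M] (a b : M) : Prop :=
  a = b ∨ ((∃ c, a = b * c) ∧ ∃ d, b = a * d)

/-- Green's relation `L`. -/
def GreenL {M : Type u} [Semigroup M] (a b : M) : Prop :=
  a = b ∨ ((∃ c, a = c * b) ∧ ∃ d, b = d * a)

/-- Green's relation `H`. -/
def GreenH {M : Type u} [Semigroup M] (a b : M) : Prop := GreenR a b ∧ GreenL a b

section general

variable {S : Type u} [RegStarSemigroup S]

theorem gen_idem (p : Proj S) : gen p * gen p = gen p := by
  unfold gen
  rw [← Con.coe_mul, Con.eq]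
  exact ConGen.Rel.of _ _ (Rel.idem p)

theorem gen_sq (p q : Proj S) : gen p * gen q * (gen p * gen q) = gen p * gen q := by
  unfold gen
  rw [← Con.coe_mul, ← Con.coe_mul, Con.eq]
  exact ConGen.Rel.of _ _ (Rel.sq p q)

theorem gen_conj (p q r : Proj S) (h : r.1 = p.1 * q.1 * p.1) :
    gen p * gen q * gen p = gen r := by
  unfold gen
  rw [← Con.coe_mul, ← Con.coe_mul, Con.eq]
  exact ConGen.Rel.of _ _ (Rel.conj p q r h)

theorem gen_left (p q r : Proj S) (h : r.1 = p.1 * q.1 * p.1) :
    gen p * gen q = gen r * gen q := by
  rw [← gen_conj p q r h, mul_assoc (gen p * gen q), gen_sq]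

theorem gen_right (p q r : Proj S) (h : r.1 = q.1 * p.1 * q.1) :
    gen p * gen q = gen p * gen r := by
  rw [← gen_conj q p r h, mul_assoc (gen q), ← mul_assoc (gen p), gen_sq]

/-- the canonical homomorphism to `S` -/
def toS : PG S →ₙ* S :=
  ⟨fun x => Con.liftOn x (fun w => FreeSemigroup.lift (fun p : Proj S => p.1) w) (by
    intro a b hab
    have : conGen (Rel S) ≤ Con.ker (FreeSemigroup.lift (fun p : Proj S => p.1) :
        FreeSemigroup (Proj S) →ₙ* S) := by
      apply Con.conGen_le.mpr
      intro x y hxy
      rw [Con.ker_rel]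
      induction hxy with
      | idem p => simp [p.2.1]
      | sq p q =>
        simp only [map_mul, FreeSemigroup.lift_of]
        have h1 := RegStarSemigroup.mul_st_mul (p.1 * q.1)
        rw [RegStarSemigroup.st_mul, p.2.2, q.2.2] at h1
        calc p.1 * q.1 * (p.1 * q.1) = p.1 * (q.1 * q.1) * ((p.1 * p.1) * q.1) := by
              rw [p.2.1, q.2.1]
          _ = p.1 * q.1 * (q.1 * p.1) * (p.1 * q.1) := by simp only [mul_assoc]
          _ = _ := h1
      | conj p q r h => simp [h]
    exact this hab), by
    intro x y
    induction x, y using Con.induction_on₂ with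
    | H a b => exact map_mul _ _ _⟩

theorem toS_gen (p : Proj S) : toS (gen p) = p.1 := by
  show FreeSemigroup.lift (fun p : Proj S => p.1) (FreeSemigroup.of p) = p.1
  rw [FreeSemigroup.lift_of]

end general

/-! ### The semigroup of a group -/

/-- vertices -/
inductive V (G : Type u) : Type u
  | v1 : V G
  | v2 : V G
  | v3 : V G
  | e12 (g : G) : V G
  | e23 (g : G) : V G
  | e13 (g : G) : V G
  | tr (g h : G) : V G

/-- the restrictions -/
inductive T
  | t12
  | t23
  | t13
  deriving DecidableEq

/-- the elements of the semigroup -/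
inductive SG (G : Type u) : Type u
  | zero : SG G
  | t (a : T) : SG G
  | r (x : V G) (g : G) (y : V G) : SG G

variable {G : Type u} [Group G]

open V T

/-- intersection of two different restrictions -/
def meet (G : Type u) : T → T → V G
  | t12, t23 => v2
  | t23, t12 => v2
  | t12, t13 => v1
  | t13, t12 => v1
  | t23, t13 => v3
  | t13, t23 => v3
  | _, _ => v1

/-- restriction of a vertex -/
def act : T → V G → Option (V G × G)
  | t12, v1 => some (v1, 1)
  | t12, v2 => some (v2, 1)
  | t12, v3 => none
  | t12, e12 g => some (e12 g, 1)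
  | t12, e23 _ => some (v2, 1)
  | t12, e13 _ => some (v1, 1)
  | t12, tr g _ => some (e12 g, 1)
  | t23, v1 => none
  | t23, v2 => some (v2, 1)
  | t23, v3 => some (v3, 1)
  | t23, e12 g => some (v2, g⁻¹)
  | t23, e23 h => some (e23 h, 1)
  | t23, e13 k => some (v3, k⁻¹)
  | t23, tr g h => some (e23 h, g⁻¹)
  | t13, v1 => some (v1, 1)
  | t13, v2 => none
  | t13, v3 => some (v3, 1)
  | t13, e12 _ => some (v1, 1)
  | t13, e23 h => some (v3, h⁻¹)
  | t13, e13 k => some (e13 k, 1)
  | t13, tr g h => some (e13 (g * h), 1)

open Classical in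
/-- the sandwich matrix -/
noncomputable def q : V G → V G → Option G
  | v1, v1 => some 1
  | v1, e12 _ => some 1
  | v1, e13 _ => some 1
  | v1, tr _ _ => some 1
  | v2, v2 => some 1
  | v2, e12 g => some g⁻¹
  | v2, e23 _ => some 1
  | v2, tr g _ => some g⁻¹
  | v3, v3 => some 1
  | v3, e23 h => some h⁻¹
  | v3, e13 k => some k⁻¹
  | v3, tr g h => some (g * h)⁻¹
  | e12 _, v1 => some 1
  | e12 g, v2 => some g
  | e12 g, e12 g' => if g = g' then some 1 else none
  | e12 g, e23 _ => some g
  | e12 _, e13 _ => some 1
  | e12 g, tr g' _ => if g = g' then some 1 else none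
  | e23 _, v2 => some 1
  | e23 h, v3 => some h
  | e23 _, e12 g => some g⁻¹
  | e23 h, e23 h' => if h = h' then some 1 else none
  | e23 h, e13 k => some (h * k⁻¹)
  | e23 h, tr g' h' => if h = h' then some g'⁻¹ else none
  | e13 _, v1 => some 1
  | e13 k, v3 => some k
  | e13 _, e12 _ => some 1
  | e13 k, e23 h => some (k * h⁻¹)
  | e13 k, e13 k' => if k = k' then some 1 else none
  | e13 k, tr g' h' => if k = g' * h' then some 1 else none
  | tr _ _, v1 => some 1
  | tr g _, v2 => some g
  | tr g h, v3 => some (g * h)
  | tr g _, e12 g' => if g = g' then some 1 else none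
  | tr g h, e23 h' => if h = h' then some g else none
  | tr g h, e13 k => if g * h = k then some 1 else none
  | tr g h, tr g' h' => if g = g' ∧ h = h' then some 1 else none
  | _, _ => none

open SG

/-- multiplication -/
noncomputable def mulS : SG G → SG G → SG G
  | zero, _ => zero
  | t _, zero => zero
  | r _ _ _, zero => zero
  | t a, t b => if a = b then t a else r (meet G a b) 1 (meet G a b)
  | t a, r x g y => match act a x with
    | none => zero
    | some (x', k) => r x' (k * g) y
  | r x g y, t a => match act a y with
    | none => zero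
    | some (y', k) => r x (g * k⁻¹) y'
  | r x g y, r x' g' y' => match q y x' with
    | none => zero
    | some k => r x (g * k * g') y'

theorem q_self (x : V G) : q x x = some 1 := by
  cases x <;> simp [q]

theorem q_symm (x y : V G) : q x y = (q y x).map (fun k => k⁻¹) := by
  cases x <;> cases y <;> simp [q] <;> (try split_ifs) <;> (try simp_all [eq_comm])

theorem act_act (a : T) (x x' : V G) (k : G) (h : act a x = some (x', k)) :
    act a x' = some (x', 1) := by
  cases a <;> cases x <;> simp [act] at h <;> obtain ⟨rfl, rfl⟩ := h <;> rfl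

set_option maxHeartbeats 4000000 in
theorem adj (a : T) (x y : V G) :
    (act a y).bind (fun z => (q z.1 x).map (fun c => z.2⁻¹ * c)) =
      (act a x).bind (fun z => (q y z.1).map (fun c => c * z.2)) := by
  cases a <;> cases x <;> cases y <;> simp [act, q] <;> (try simp_all [mul_assoc])

set_option maxHeartbeats 4000000 in
theorem act_two (a b : T) (hab : a ≠ b) (x : V G) :
    (act b x).bind (fun z => (act a z.1).map (fun w => (w.1, w.2 * z.2))) =
      (q (meet G a b) x).map (fun c => (meet G a b, c)) := by
  cases a <;> cases b <;> first | exact absurd rfl hab | skip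
  all_goals cases x <;> simp [act, q, meet]

end Pool.Agent.H775R3.PGen
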