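import Pool.Agent.H775R3.PGSemi

set_option autoImplicit false

namespace Pool.Agent.H775R3.PGen

universe u

variable {G : Type u} [Group G]

open V T SG

/-- generator of a vertex -/
noncomputable abbrev X (v : V G) : PG (SG G) := gen (pX v)

/-- generator of a restriction -/
noncomputable abbrev Y (a : T) : PG (SG G) := gen (pY a)

/-- the generator of zero -/
noncomputable abbrev Z : PG (SG G) := gen pZ

theorem XX (v : V G) : X v * X v = X v := gen_idem _

theorem ZZ : (Z : PG (SG G)) * Z = Z := gen_idem _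

theorem XXX (u v : V G) (k : G) (h : q u v = some k) : X u * X v * X u = X u := by
  apply gen_conj
  have h' : q v u = some k⁻¹ := by
    rw [q_symm, h]; rfl
  show r u 1 u = mulS (mulS (r u 1 u) (r v 1 v)) (r u 1 u)
  rw [mulS_rr_some _ _ _ _ _ _ _ h, mulS_rr_some _ _ _ _ _ _ _ h']
  simp

theorem ZX (v : V G) : Z * X v = Z := by
  rw [gen_right pZ (pX v) pZ, ZZ]
  show zero = mulS (mulS (r v 1 v) zero) (r v 1 v)
  rfl

theorem XZ (v : V G) : X v * Z = Z := by
  rw [gen_left (pX v) pZ pZ, ZZ]
  show zero = mulS (mulS (r v 1 v) zero) (r v 1 v)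
  rfl

theorem ZY (a : T) : Z * Y a = (Z : PG (SG G)) := by
  rw [gen_right pZ (pY a) pZ, ZZ]
  show zero = mulS (mulS (t a) zero) (t a)
  rfl

theorem YZ (a : T) : Y a * Z = (Z : PG (SG G)) := by
  rw [gen_left (pY a) pZ pZ, ZZ]
  show zero = mulS (mulS (t a) zero) (t a)
  rfl

theorem XX_none (u v : V G) (h : q u v = none) : X u * X v = Z := by
  rw [gen_left (pX u) (pX v) pZ, ZX]
  show zero = mulS (mulS (r u 1 u) (r v 1 v)) (r u 1 u)
  rw [mulS_rr_none _ _ _ _ _ _ h]
  rfl

theorem YX (a : T) (v v' : V G) (k : G) (h : act a v = some (v', k)) :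
    Y a * X v = X v' * X v := by
  apply gen_left
  show r v' 1 v' = mulS (mulS (t a) (r v 1 v)) (t a)
  rw [mulS_tr_some _ _ _ _ _ _ h, mulS_rt_some _ _ _ _ _ _ h]
  simp

theorem XY (a : T) (v v' : V G) (k : G) (h : act a v = some (v', k)) :
    X v * Y a = X v * X v' := by
  apply gen_right
  show r v' 1 v' = mulS (mulS (t a) (r v 1 v)) (t a)
  rw [mulS_tr_some _ _ _ _ _ _ h, mulS_rt_some _ _ _ _ _ _ h]
  simp

theorem XY_none (a : T) (v : V G) (h : act a v = none) : X v * Y a = Z := by
  rw [gen_right (pX v) (pY a) pZ, XZ]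
  show zero = mulS (mulS (t a) (r v 1 v)) (t a)
  rw [mulS_tr_none _ _ _ _ h]
  rfl

/-- the triangle relation -/
theorem tri (a : T) (w w' u u' : V G) (k l : G) (hw : act a w = some (w', k))
    (hu : act a u = some (u', l)) : X w * X w' * X u = X w * X u' * X u := by
  rw [← XY a w w' k hw, mul_assoc, YX a u u' l hu, mul_assoc]

/-! #### Specific words -/

/-- `α g` -/
noncomputable def al (g : G) : PG (SG G) := X v1 * X (e12 g) * X v2
/-- `α' g` -/
noncomputable def al' (g : G) : PG (SG G) := X v2 * X (e12 g) * X v1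
/-- `β g` -/
noncomputable def be (g : G) : PG (SG G) := X v2 * X (e23 g) * X v3
/-- `β' g` -/
noncomputable def be' (g : G) : PG (SG G) := X v3 * X (e23 g) * X v2
/-- `γ g` -/
noncomputable def ga (g : G) : PG (SG G) := X v1 * X (e13 g) * X v3
/-- `γ' g` -/
noncomputable def ga' (g : G) : PG (SG G) := X v3 * X (e13 g) * X v1

section

variable (g h k : G)

theorem q1e : q v1 (e12 g) = some 1 := rfl
theorem qe1 : q (e12 g) v1 = some 1 := rfl

/-- `X1 X(e12 g) X(tr g h) = X1 X(tr g h)` -/
theorem c1 : X v1 * X (e12 g) * X (tr g h) = X v1 * X (tr g h) := by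
  have := tri t12 v1 v1 (tr g h) (e12 g) 1 1 rfl rfl
  rw [XX] at this
  exact this.symm

theorem c1' : X (tr g h) * X (e12 g) * X v1 = X (tr g h) * X v1 := by
  have := tri t12 (tr g h) (e12 g) v1 v1 1 1 rfl rfl
  rw [this, mul_assoc, XX]

theorem c2 : X v2 * X (e12 g) * X (tr g h) = X v2 * X (tr g h) := by
  have := tri t12 v2 v2 (tr g h) (e12 g) 1 1 rfl rfl
  rw [XX] at this
  exact this.symm

theorem c2' : X (tr g h) * X (e12 g) * X v2 = X (tr g h) * X v2 := by
  have := tri t12 (tr g h) (e12 g) v2 v2 1 1 rfl rfl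
  rw [this, mul_assoc, XX]

theorem c3 : X v2 * X (e23 h) * X (tr g h) = X v2 * X (tr g h) := by
  have := tri t23 v2 v2 (tr g h) (e23 h) 1 g⁻¹ rfl rfl
  rw [XX] at this
  exact this.symm

theorem c3' : X (tr g h) * X (e23 h) * X v2 = X (tr g h) * X v2 := by
  have := tri t23 (tr g h) (e23 h) v2 v2 g⁻¹ 1 rfl rfl
  rw [this, mul_assoc, XX]

theorem c4 : X v3 * X (e23 h) * X (tr g h) = X v3 * X (tr g h) := by
  have := tri t23 v3 v3 (tr g h) (e23 h) 1 g⁻¹ rfl rfl
  rw [XX] at this
  exact this.symm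

theorem c4' : X (tr g h) * X (e23 h) * X v3 = X (tr g h) * X v3 := by
  have := tri t23 (tr g h) (e23 h) v3 v3 g⁻¹ 1 rfl rfl
  rw [this, mul_assoc, XX]

theorem c5 : X v1 * X (e13 (g * h)) * X (tr g h) = X v1 * X (tr g h) := by
  have := tri t13 v1 v1 (tr g h) (e13 (g * h)) 1 1 rfl rfl
  rw [XX] at this
  exact this.symm

theorem c5' : X (tr g h) * X (e13 (g * h)) * X v1 = X (tr g h) * X v1 := by
  have := tri t13 (tr g h) (e13 (g * h)) v1 v1 1 1 rfl rfl
  rw [this, mul_assoc, XX]

theorem c6 : X v3 * X (e13 (g * h)) * X (tr g h) = X v3 * X (tr g h) := by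
  have := tri t13 v3 v3 (tr g h) (e13 (g * h)) 1 1 rfl rfl
  rw [XX] at this
  exact this.symm

theorem c6' : X (tr g h) * X (e13 (g * h)) * X v3 = X (tr g h) * X v3 := by
  have := tri t13 (tr g h) (e13 (g * h)) v3 v3 1 1 rfl rfl
  rw [this, mul_assoc, XX]

end

/-- replace an edge by a triangle: generic step -/
theorem edge_step (a b e w : V G) (k : G) (h1 : X a * X e * X w = X a * X w)
    (h2 : X w * X e * X b = X w * X b) (h3 : q e w = some k) :
    X a * X e * X b = X a * X w * X b := by
  calc X a * X e * X b = X a * (X e * X w * X e) * X b := by rw [XXX e w k h3]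
    _ = X a * X e * X w * X e * X b := by simp only [mul_assoc]
    _ = X a * (X w * X e * X b) := by rw [h1]; simp only [mul_assoc]
    _ = X a * X w * X b := by rw [h2]; simp only [mul_assoc]

theorem al_tr (g h : G) : al g = X v1 * X (tr g h) * X v2 :=
  edge_step v1 v2 (e12 g) (tr g h) 1 (c1 g h) (c2' g h) (by simp [q])

theorem al'_tr (g h : G) : al' g = X v2 * X (tr g h) * X v1 :=
  edge_step v2 v1 (e12 g) (tr g h) 1 (c2 g h) (c1' g h) (by simp [q])

theorem be_tr (g h : G) : be h = X v2 * X (tr g h) * X v3 :=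
  edge_step v2 v3 (e23 h) (tr g h) g⁻¹ (c3 g h) (c4' g h) (by simp [q])

theorem be'_tr (g h : G) : be' h = X v3 * X (tr g h) * X v2 :=
  edge_step v3 v2 (e23 h) (tr g h) g⁻¹ (c4 g h) (c3' g h) (by simp [q])

theorem ga_tr (g h : G) : ga (g * h) = X v1 * X (tr g h) * X v3 :=
  edge_step v1 v3 (e13 (g * h)) (tr g h) 1 (c5 g h) (c6' g h) (by simp [q])

theorem ga'_tr (g h : G) : ga' (g * h) = X v3 * X (tr g h) * X v1 :=
  edge_step v3 v1 (e13 (g * h)) (tr g h) 1 (c6 g h) (c5' g h) (by simp [q])

/-- composing two paths through a common vertex -/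
theorem comp_step (a b c w : V G) (k : G) (h : q w b = some k) :
    X a * X w * X b * (X b * X w * X c) = X a * X w * X c := by
  calc X a * X w * X b * (X b * X w * X c) = X a * (X w * (X b * X b) * X w) * X c := by
        simp only [mul_assoc]
    _ = X a * X w * X c := by rw [XX, XXX w b k h]

theorem al_be (g h : G) : al g * be h = ga (g * h) := by
  rw [al_tr g h, be_tr g h, ga_tr g h, comp_step v1 v2 v3 (tr g h) g rfl]

theorem be'_al' (g h : G) : be' h * al' g = ga' (g * h) := by
  rw [al'_tr g h, be'_tr g h, ga'_tr g h, comp_step v3 v2 v1 (tr g h) g rfl]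

theorem al_al' (g : G) : al g * al' g = X v1 := by
  unfold al al'
  rw [comp_step v1 v2 v1 (e12 g) g rfl, XXX v1 (e12 g) 1 rfl]

theorem al'_al (g : G) : al' g * al g = X v2 := by
  unfold al al'
  rw [comp_step v2 v1 v2 (e12 g) 1 rfl, XXX v2 (e12 g) g⁻¹ rfl]

theorem be_be' (g : G) : be g * be' g = X v2 := by
  unfold be be'
  rw [comp_step v2 v3 v2 (e23 g) g rfl, XXX v2 (e23 g) 1 rfl]

theorem be'_be (g : G) : be' g * be g = X v3 := by
  unfold be be'
  rw [comp_step v3 v2 v3 (e23 g) 1 rfl, XXX v3 (e23 g) g⁻¹ rfl]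

theorem ga_ga' (g : G) : ga g * ga' g = X v1 := by
  unfold ga ga'
  rw [comp_step v1 v3 v1 (e13 g) g rfl, XXX v1 (e13 g) 1 rfl]

theorem ga'_ga (g : G) : ga' g * ga g = X v3 := by
  unfold ga ga'
  rw [comp_step v3 v1 v3 (e13 g) 1 rfl, XXX v3 (e13 g) g⁻¹ rfl]

theorem X1_al (g : G) : X v1 * al g = al g := by
  unfold al; rw [← mul_assoc, ← mul_assoc, XX]
theorem al_X2 (g : G) : al g * X v2 = al g := by
  unfold al; rw [mul_assoc, XX]
theorem X2_al' (g : G) : X v2 * al' g = al' g := by
  unfold al'; rw [← mul_assoc, ← mul_assoc, XX]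
theorem al'_X1 (g : G) : al' g * X v1 = al' g := by
  unfold al'; rw [mul_assoc, XX]
theorem X2_be (g : G) : X v2 * be g = be g := by
  unfold be; rw [← mul_assoc, ← mul_assoc, XX]
theorem be_X3 (g : G) : be g * X v3 = be g := by
  unfold be; rw [mul_assoc, XX]
theorem X3_be' (g : G) : X v3 * be' g = be' g := by
  unfold be'; rw [← mul_assoc, ← mul_assoc, XX]
theorem be'_X2 (g : G) : be' g * X v2 = be' g := by
  unfold be'; rw [mul_assoc, XX]
theorem X1_ga (g : G) : X v1 * ga g = ga g := by
  unfold ga; rw [← mul_assoc, ← mul_assoc, XX]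
theorem ga_X3 (g : G) : ga g * X v3 = ga g := by
  unfold ga; rw [mul_assoc, XX]
theorem ga'_X1 (g : G) : ga' g * X v1 = ga' g := by
  unfold ga'; rw [mul_assoc, XX]

/-- `C g` -/
noncomputable def C (g : G) : PG (SG G) := al g * al' 1

/-- `α'(g) α(h) = β(k l) β'(l)` when `h l = g k` -/
theorem al'_al_eq (h l : G) : al' 1 * al h = be (h * l) * be' l := by
  have e1 : al' (1 : G) = be (h * l) * ga' (h * l) := by
    have := be'_al' (1 : G) (h * l)
    rw [one_mul] at this
    rw [← this, ← mul_assoc, be_be', X2_al']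
  have e2 : al h = ga (h * l) * be' l := by
    rw [← al_be, mul_assoc, be_be', al_X2]
  calc al' 1 * al h = be (h * l) * ga' (h * l) * (ga (h * l) * be' l) := by rw [← e1, ← e2]
    _ = be (h * l) * (ga' (h * l) * ga (h * l)) * be' l := by simp only [mul_assoc]
    _ = _ := by rw [ga'_ga, be_X3]

theorem C_eq (g l : G) : C g = ga (g * l) * ga' l := by
  have e : be' l * al' (1 : G) = ga' l := by
    have := be'_al' (1 : G) l
    rwa [one_mul] at this
  calc C g = al g * X v2 * al' 1 := by unfold C; rw [al_X2]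
    _ = al g * (be l * be' l) * al' 1 := by rw [be_be']
    _ = (al g * be l) * (be' l * al' 1) := by simp only [mul_assoc]
    _ = _ := by rw [al_be, e]

theorem C_mul (g h : G) : C g * C h = C (g * h) := by
  have e : be' (1 : G) * al' (1 : G) = ga' 1 := by
    have := be'_al' (1 : G) 1
    rwa [one_mul] at this
  calc C g * C h = al g * (al' 1 * al h) * al' 1 := by unfold C; simp only [mul_assoc]
    _ = al g * (be (h * 1) * be' 1) * al' 1 := by rw [al'_al_eq h 1]
    _ = (al g * be (h * 1)) * (be' 1 * al' 1) := by simp only [mul_assoc]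
    _ = ga (g * (h * 1)) * ga' 1 := by rw [al_be, e]
    _ = C (g * h) := by rw [C_eq (g * h) 1, mul_assoc]

theorem C_one : C (1 : G) = X v1 := al_al' 1

theorem C_al (g : G) : C g * al 1 = al g := by
  unfold C; rw [mul_assoc, al'_al, al_X2]

theorem C_ga (g : G) : C g * ga 1 = ga g := by
  have h1 : ga (1 : G) = al 1 * be 1 := by rw [al_be, one_mul]
  have h2 : ga g = al g * be 1 := by rw [al_be, mul_one]
  rw [h1, h2, ← mul_assoc, C_al]

theorem X1_C (g : G) : X v1 * C g = C g := by
  unfold C; rw [← mul_assoc, X1_al]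

theorem C_X1 (g : G) : C g * X v1 = C g := by
  unfold C; rw [mul_assoc, al'_X1]

/-- from `C g * y = X1` deduce `y` when `X1 * y = y` -/
theorem C_inv_of (g : G) (y z : PG (SG G)) (hy : X v1 * y = y) (h : C g * y = z) :
    y = C g⁻¹ * z := by
  rw [← h, ← mul_assoc, C_mul, inv_mul_cancel, C_one, hy]

theorem al1_al' (g : G) : al 1 * al' g = C g⁻¹ := by
  have h : C g * (al 1 * al' g) = X v1 := by rw [← mul_assoc, C_al, al_al']
  rw [C_inv_of g _ _ (by rw [← mul_assoc, X1_al]) h, C_X1]

theorem ga1_ga' (g : G) : ga 1 * ga' g = C g⁻¹ := by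
  have h : C g * (ga 1 * ga' g) = X v1 := by rw [← mul_assoc, C_ga, ga_ga']
  rw [C_inv_of g _ _ (by rw [← mul_assoc, X1_ga]) h, C_X1]

theorem ga1_be' (g : G) : ga 1 * be' g = C g⁻¹ * al 1 := by
  have h : C g * (ga 1 * be' g) = al 1 := by
    rw [← mul_assoc, C_ga, ← one_mul g, ← al_be, one_mul, mul_assoc, be_be', al_X2]
  exact C_inv_of g _ _ (by rw [← mul_assoc, X1_ga]) h

/-- the representatives -/
noncomputable def D : V G → PG (SG G)
  | v1 => X v1
  | v2 => al 1
  | v3 => ga 1
  | e12 g => X v1 * X (e12 g)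
  | e23 h => al 1 * X (e23 h)
  | e13 k => X v1 * X (e13 k)
  | tr g h => X v1 * X (tr g h)

theorem X1_D (w : V G) : X v1 * D w = D w := by
  cases w with
  | v1 => exact XX _
  | v2 => exact X1_al _
  | v3 => exact X1_ga _
  | e12 g => unfold D; rw [← mul_assoc, XX]
  | e23 h => unfold D; rw [← mul_assoc, X1_al]
  | e13 k => unfold D; rw [← mul_assoc, XX]
  | tr g h => unfold D; rw [← mul_assoc, XX]

theorem D_X (w : V G) : D w * X w = D w := by
  cases w with
  | v1 => exact XX _
  | v2 => exact al_X2 _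
  | v3 => exact ga_X3 _
  | e12 g => unfold D; rw [mul_assoc, XX]
  | e23 h => unfold D; rw [mul_assoc, XX]
  | e13 k => unfold D; rw [mul_assoc, XX]
  | tr g h => unfold D; rw [mul_assoc, XX]

theorem D_Z (w : V G) : D w * Z = Z := by
  cases w <;> simp only [D, al, ga, mul_assoc, XZ]

theorem D_mul_none (w w' : V G) (h : q w w' = none) : D w * X w' = Z := by
  rw [← D_X w, mul_assoc, XX_none _ _ h, D_Z]

/-- `X2 X(e12 g) = α'(g) X(e12 g)` and similar: expand the second letter through a vertex -/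
theorem expand (y : PG (SG G)) (w e v : V G) (k : G) (h : q e v = some k) :
    y * X w * X e = y * (X w * X e * X v) * X e := by
  conv_lhs => rw [← XXX e v k h]
  simp only [mul_assoc]

theorem D2_e12 (g : G) : al 1 * X (e12 g) = C g⁻¹ * (X v1 * X (e12 g)) := by
  calc al 1 * X (e12 g) = al 1 * X v2 * X (e12 g) := by rw [al_X2]
    _ = al 1 * (X v2 * X (e12 g) * X v1) * X (e12 g) := expand _ _ _ _ 1 rfl
    _ = al 1 * al' g * X (e12 g) := rfl
    _ = C g⁻¹ * X v1 * X (e12 g) := by rw [al1_al', C_X1]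
    _ = _ := by rw [mul_assoc]

theorem D2_tr (g h : G) : al 1 * X (tr g h) = C g⁻¹ * (X v1 * X (tr g h)) := by
  calc al 1 * X (tr g h) = al 1 * X v2 * X (tr g h) := by rw [al_X2]
    _ = al 1 * (X v2 * X (tr g h) * X v1) * X (tr g h) := expand _ _ _ _ 1 rfl
    _ = al 1 * al' g * X (tr g h) := by rw [← al'_tr]
    _ = C g⁻¹ * X v1 * X (tr g h) := by rw [al1_al', C_X1]
    _ = _ := by rw [mul_assoc]

theorem D3_e23 (h : G) : ga 1 * X (e23 h) = C h⁻¹ * (al 1 * X (e23 h)) := by
  calc ga 1 * X (e23 h) = ga 1 * X v3 * X (e23 h) := by rw [ga_X3]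
    _ = ga 1 * (X v3 * X (e23 h) * X v2) * X (e23 h) := expand _ _ _ _ 1 rfl
    _ = ga 1 * be' h * X (e23 h) := rfl
    _ = _ := by rw [ga1_be', mul_assoc]

theorem D3_e13 (k : G) : ga 1 * X (e13 k) = C k⁻¹ * (X v1 * X (e13 k)) := by
  calc ga 1 * X (e13 k) = ga 1 * X v3 * X (e13 k) := by rw [ga_X3]
    _ = ga 1 * (X v3 * X (e13 k) * X v1) * X (e13 k) := expand _ _ _ _ 1 rfl
    _ = ga 1 * ga' k * X (e13 k) := rfl
    _ = C k⁻¹ * X v1 * X (e13 k) := by rw [ga1_ga', C_X1]
    _ = _ := by rw [mul_assoc]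

theorem D3_tr (g h : G) : ga 1 * X (tr g h) = C (g * h)⁻¹ * (X v1 * X (tr g h)) := by
  calc ga 1 * X (tr g h) = ga 1 * X v3 * X (tr g h) := by rw [ga_X3]
    _ = ga 1 * (X v3 * X (tr g h) * X v1) * X (tr g h) := expand _ _ _ _ 1 rfl
    _ = ga 1 * ga' (g * h) * X (tr g h) := by rw [← ga'_tr]
    _ = C (g * h)⁻¹ * X v1 * X (tr g h) := by rw [ga1_ga', C_X1]
    _ = _ := by rw [mul_assoc]

/-- main product rule -/
theorem D_mul (w w' : V G) (k : G) (hk : q w w' = some k) : D w * X w' = C k * D w' := by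
  have triv : ∀ w : V G, D w * X w = C 1 * D w := fun w => by rw [D_X, C_one, X1_D]
  have X1_XX : ∀ w : V G, X v1 * X w = C 1 * (X v1 * X w) := fun w => by
    rw [C_one, ← mul_assoc, XX]
  rcases w with _ | _ | _ | g | h | l | ⟨g, h⟩
  · -- v1
    rcases w' with _ | _ | _ | g' | h' | l' | ⟨g', h'⟩
    · obtain rfl : 1 = k := by simpa [q] using hk
      exact triv _
    · simp [q] at hk
    · simp [q] at hk
    · obtain rfl : 1 = k := by simpa [q] using hk
      exact X1_XX _
    · simp [q] at hk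
    · obtain rfl : 1 = k := by simpa [q] using hk
      exact X1_XX _
    · obtain rfl : 1 = k := by simpa [q] using hk
      exact X1_XX _
  · -- v2
    rcases w' with _ | _ | _ | g' | h' | l' | ⟨g', h'⟩
    · simp [q] at hk
    · obtain rfl : 1 = k := by simpa [q] using hk
      exact triv _
    · simp [q] at hk
    · obtain rfl : g'⁻¹ = k := by simpa [q] using hk
      exact D2_e12 g'
    · obtain rfl : 1 = k := by simpa [q] using hk
      show al 1 * X (e23 h') = C 1 * (al 1 * X (e23 h'))
      rw [C_one, ← mul_assoc, X1_al]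
    · simp [q] at hk
    · obtain rfl : g'⁻¹ = k := by simpa [q] using hk
      exact D2_tr g' h'
  · -- v3
    rcases w' with _ | _ | _ | g' | h' | l' | ⟨g', h'⟩
    · simp [q] at hk
    · simp [q] at hk
    · obtain rfl : 1 = k := by simpa [q] using hk
      exact triv _
    · simp [q] at hk
    · obtain rfl : h'⁻¹ = k := by simpa [q] using hk
      exact D3_e23 h'
    · obtain rfl : l'⁻¹ = k := by simpa [q] using hk
      exact D3_e13 l'
    · obtain rfl : (g' * h')⁻¹ = k := by simpa [q] using hk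
      exact D3_tr g' h'
  · -- e12 g
    rcases w' with _ | _ | _ | g' | h' | l' | ⟨g', h'⟩
    · obtain rfl : 1 = k := by simpa [q] using hk
      show X v1 * X (e12 g) * X v1 = C 1 * X v1
      rw [C_one, XX, XXX v1 (e12 g) 1 rfl]
    · obtain rfl : g = k := by simpa [q] using hk
      show al g = C g * al 1
      rw [C_al]
    · simp [q] at hk
    · have : g = g' := by
        by_contra hne; simp [q, hne] at hk
      subst this
      obtain rfl : 1 = k := by simpa [q] using hk
      exact triv _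
    · obtain rfl : g = k := by simpa [q] using hk
      have h0 : X (e12 g) * X v2 * X (e23 h') = X (e12 g) * X (e23 h') := by
        have := tri t12 (e12 g) (e12 g) (e23 h') v2 1 1 rfl rfl
        rw [XX] at this
        exact this.symm
      show X v1 * X (e12 g) * X (e23 h') = C g * (al 1 * X (e23 h'))
      rw [← mul_assoc, C_al]
      unfold al
      rw [mul_assoc (X v1), ← h0]
      simp only [mul_assoc]
    · obtain rfl : 1 = k := by simpa [q] using hk
      have h0 : X (e12 g) * X (e13 l') = X (e12 g) * X v1 * X (e13 l') := by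
        have := tri t12 (e12 g) (e12 g) (e13 l') v1 1 1 rfl rfl
        rwa [XX] at this
      show X v1 * X (e12 g) * X (e13 l') = C 1 * (X v1 * X (e13 l'))
      rw [← X1_XX, mul_assoc, h0, ← mul_assoc, ← mul_assoc, XXX v1 (e12 g) 1 rfl]
    · have : g = g' := by
        by_contra hne; simp [q, hne] at hk
      subst this
      obtain rfl : 1 = k := by simpa [q] using hk
      show X v1 * X (e12 g) * X (tr g h') = C 1 * (X v1 * X (tr g h'))
      rw [← X1_XX, c1]
  · -- e23 h
    rcases w' with _ | _ | _ | g' | h' | l' | ⟨g', h'⟩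
    · simp [q] at hk
    · obtain rfl : 1 = k := by simpa [q] using hk
      show al 1 * X (e23 h) * X v2 = C 1 * al 1
      rw [C_one, X1_al]
      conv_lhs => rw [← al_X2]
      rw [mul_assoc, mul_assoc, ← mul_assoc (X v2), XXX v2 (e23 h) 1 rfl, al_X2]
    · obtain rfl : h = k := by simpa [q] using hk
      show al 1 * X (e23 h) * X v3 = C h * ga 1
      rw [C_ga]
      conv_lhs => rw [← al_X2]
      have : ga h = al 1 * be h := by rw [al_be, one_mul]
      rw [this]
      unfold be
      simp only [mul_assoc]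
    · obtain rfl : g'⁻¹ = k := by simpa [q] using hk
      have h0 : X (e23 h) * X v2 * X (e12 g') = X (e23 h) * X (e12 g') := by
        have := tri t12 (e23 h) v2 (e12 g') (e12 g') 1 1 rfl rfl
        rw [this, mul_assoc, XX]
      show al 1 * X (e23 h) * X (e12 g') = C g'⁻¹ * (X v1 * X (e12 g'))
      rw [mul_assoc, ← h0, ← D2_e12, ← al_X2]
      calc al 1 * X v2 * (X (e23 h) * X v2 * X (e12 g')) =
            al 1 * (X v2 * X (e23 h) * X v2) * X (e12 g') := by simp only [mul_assoc]
        _ = al 1 * X v2 * X (e12 g') := by rw [XXX v2 (e23 h) 1 rfl]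
    · have : h = h' := by
        by_contra hne; simp [q, hne] at hk
      subst this
      obtain rfl : 1 = k := by simpa [q] using hk
      exact triv _
    · obtain rfl : h * l'⁻¹ = k := by simpa [q] using hk
      have h0 : X (e23 h) * X (e13 l') = X (e23 h) * X v3 * X (e13 l') := by
        have := tri t23 (e23 h) (e23 h) (e13 l') v3 1 l'⁻¹ rfl rfl
        rwa [XX] at this
      have h1 : al 1 * X (e23 h) * X v3 = ga h := by
        have : ga h = al 1 * be h := by rw [al_be, one_mul]
        rw [this]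
        conv_lhs => rw [← al_X2]
        unfold be
        simp only [mul_assoc]
      show al 1 * X (e23 h) * X (e13 l') = C (h * l'⁻¹) * (X v1 * X (e13 l'))
      rw [← C_mul, mul_assoc (C h), ← D3_e13, ← mul_assoc (C h), C_ga, ← h1]
      rw [mul_assoc (al 1), h0]
      simp only [mul_assoc]
    · have : h = h' := by
        by_contra hne; simp [q, hne] at hk
      subst this
      obtain rfl : g'⁻¹ = k := by simpa [q] using hk
      show al 1 * X (e23 h) * X (tr g' h) = C g'⁻¹ * (X v1 * X (tr g' h))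
      rw [← D2_tr]
      conv_lhs => rw [← al_X2]
      conv_rhs => rw [← al_X2]
      rw [mul_assoc (al 1), mul_assoc (al 1), c3, ← mul_assoc]
  · -- e13 l
    rcases w' with _ | _ | _ | g' | h' | l' | ⟨g', h'⟩
    · obtain rfl : 1 = k := by simpa [q] using hk
      show X v1 * X (e13 l) * X v1 = C 1 * X v1
      rw [C_one, XX, XXX v1 (e13 l) 1 rfl]
    · simp [q] at hk
    · obtain rfl : l = k := by simpa [q] using hk
      show ga l = C l * ga 1
      rw [C_ga]
    · obtain rfl : 1 = k := by simpa [q] using hk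
      have h0 : X (e13 l) * X v1 * X (e12 g') = X (e13 l) * X (e12 g') := by
        have := tri t12 (e13 l) v1 (e12 g') (e12 g') 1 1 rfl rfl
        rw [this, mul_assoc, XX]
      show X v1 * X (e13 l) * X (e12 g') = C 1 * (X v1 * X (e12 g'))
      rw [← X1_XX, mul_assoc, ← h0, ← mul_assoc, ← mul_assoc, XXX v1 (e13 l) 1 rfl]
    · obtain rfl : l * h'⁻¹ = k := by simpa [q] using hk
      have h0 : X (e13 l) * X (e23 h') = X (e13 l) * X v3 * X (e23 h') := by
        have := tri t13 (e13 l) (e13 l) (e23 h') v3 1 h'⁻¹ rfl rfl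
        rwa [XX] at this
      show X v1 * X (e13 l) * X (e23 h') = C (l * h'⁻¹) * (al 1 * X (e23 h'))
      rw [← C_mul, mul_assoc (C l), ← D3_e23, ← mul_assoc (C l), C_ga]
      unfold ga
      rw [mul_assoc (X v1), h0]
      simp only [mul_assoc]
    · have : l = l' := by
        by_contra hne; simp [q, hne] at hk
      subst this
      obtain rfl : 1 = k := by simpa [q] using hk
      exact triv _
    · have : l = g' * h' := by
        by_contra hne; simp [q, hne] at hk
      subst this
      obtain rfl : 1 = k := by simpa [q] using hk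
      show X v1 * X (e13 (g' * h')) * X (tr g' h') = C 1 * (X v1 * X (tr g' h'))
      rw [← X1_XX, c5]
  · -- tr g h
    rcases w' with _ | _ | _ | g' | h' | l' | ⟨g', h'⟩
    · obtain rfl : 1 = k := by simpa [q] using hk
      show X v1 * X (tr g h) * X v1 = C 1 * X v1
      rw [C_one, XX, XXX v1 (tr g h) 1 rfl]
    · obtain rfl : g = k := by simpa [q] using hk
      show X v1 * X (tr g h) * X v2 = C g * al 1
      rw [C_al, al_tr g h]
    · obtain rfl : g * h = k := by simpa [q] using hk
      show X v1 * X (tr g h) * X v3 = C (g * h) * ga 1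
      rw [C_ga, ga_tr g h]
    · have : g = g' := by
        by_contra hne; simp [q, hne] at hk
      subst this
      obtain rfl : 1 = k := by simpa [q] using hk
      show X v1 * X (tr g h) * X (e12 g) = C 1 * (X v1 * X (e12 g))
      rw [← X1_XX, ← c1, mul_assoc, mul_assoc, ← mul_assoc (X (e12 g)),
        XXX (e12 g) (tr g h) 1 (by simp [q])]
    · have : h = h' := by
        by_contra hne; simp [q, hne] at hk
      subst this
      obtain rfl : g = k := by simpa [q] using hk
      show X v1 * X (tr g h) * X (e23 h) = C g * (al 1 * X (e23 h))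
      rw [← mul_assoc, C_al, al_tr g h]
      calc X v1 * X (tr g h) * X (e23 h) =
            X v1 * (X (tr g h) * X v2 * X (tr g h)) * X (e23 h) := by
            rw [XXX (tr g h) v2 g rfl]
        _ = X v1 * X (tr g h) * (X v2 * X (tr g h)) * X (e23 h) := by simp only [mul_assoc]
        _ = X v1 * X (tr g h) * (X v2 * X (e23 h) * X (tr g h)) * X (e23 h) := by rw [c3]
        _ = X v1 * X (tr g h) * X v2 * (X (e23 h) * X (tr g h) * X (e23 h)) := by
            simp only [mul_assoc]
        _ = _ := by rw [XXX (e23 h) (tr g h) g⁻¹ (by simp [q])]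
    · have : g * h = l' := by
        by_contra hne; simp [q, hne] at hk
      subst this
      obtain rfl : 1 = k := by simpa [q] using hk
      show X v1 * X (tr g h) * X (e13 (g * h)) = C 1 * (X v1 * X (e13 (g * h)))
      rw [← X1_XX, ← c5, mul_assoc, mul_assoc, ← mul_assoc (X (e13 (g * h))),
        XXX (e13 (g * h)) (tr g h) 1 (by simp [q])]
    · have : g = g' ∧ h = h' := by
        by_contra hne; simp [q, hne] at hk
      obtain ⟨rfl, rfl⟩ := this
      obtain rfl : 1 = k := by simpa [q] using hk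
      exact triv _

theorem q_act (a : T) (w w' : V G) (k : G) (h : act a w = some (w', k)) :
    ∃ c, q w w' = some c := by
  cases a <;> cases w <;> simp [act] at h <;> obtain ⟨rfl, rfl⟩ := h <;> simp [q]

/-- every element of `X1 * PG` is `Z` or `C g * D w` -/
theorem C_D_Z (g : G) (w : V G) : C g * D w * Z = Z := by
  rw [mul_assoc, D_Z]
  unfold C al al'
  simp only [mul_assoc, XZ]

theorem step (g : G) (w : V G) (p : Proj (SG G)) :
    C g * D w * gen p = Z ∨ ∃ g' w', C g * D w * gen p = C g' * D w' := by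
  rcases proj_cases p with rfl | ⟨a, rfl⟩ | ⟨v, rfl⟩
  · exact Or.inl (C_D_Z g w)
  · rcases h : act a w with _ | ⟨w', k⟩
    · left
      rw [← D_X w, ← mul_assoc, mul_assoc _ (X w), XY_none a w h, C_D_Z]
    · right
      obtain ⟨c, hc⟩ := q_act a w w' k h
      refine ⟨g * c, w', ?_⟩
      rw [← D_X w, ← mul_assoc, mul_assoc _ (X w), XY a w w' k h, ← mul_assoc,
        mul_assoc (C g), D_X, mul_assoc, D_mul w w' c hc, ← mul_assoc, C_mul]
  · rcases h : q w v with _ | c
    · left
      show C g * D w * X v = Z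
      rw [mul_assoc, D_mul_none w v h]
      unfold C al al'
      simp only [mul_assoc, XZ]
    · right
      refine ⟨g * c, v, ?_⟩
      show C g * D w * X v = _
      rw [mul_assoc, D_mul w v c h, ← mul_assoc, C_mul]

theorem Z_gen (p : Proj (SG G)) : Z * gen p = Z := by
  rcases proj_cases p with rfl | ⟨a, rfl⟩ | ⟨v, rfl⟩
  · exact ZZ
  · exact ZY a
  · exact ZX v

theorem span (m : FreeSemigroup (Proj (SG G))) : ∀ y : PG (SG G),
    (y = Z ∨ ∃ g w, y = C g * D w) →
    (y * (m : PG (SG G)) = Z ∨ ∃ g w, y * (m : PG (SG G)) = C g * D w) := by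
  induction m using FreeSemigroup.recOnMul with
  | ih1 p =>
    intro y hy
    rcases hy with rfl | ⟨g, w, rfl⟩
    · exact Or.inl (Z_gen p)
    · exact step g w p
  | ih2 p m h1 h2 =>
    intro y hy
    rw [Con.coe_mul, ← mul_assoc]
    exact h2 _ (h1 y hy)

theorem toS_C (g : G) : toS (C g) = r v1 g v1 := by
  unfold C al al'
  simp only [map_mul, toS_gen]
  show mulS (mulS (mulS (r v1 1 v1) (r (e12 g) 1 (e12 g))) (r v2 1 v2))
    (mulS (mulS (r v2 1 v2) (r (e12 1) 1 (e12 1))) (r v1 1 v1)) = _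
  simp [mulS, q]

theorem toS_D (w : V G) : toS (D w) = r v1 1 w := by
  cases w with
  | v1 => exact toS_gen _
  | v2 =>
    unfold D al
    simp only [map_mul, toS_gen]
    show mulS (mulS (r v1 1 v1) (r (e12 1) 1 (e12 1))) (r v2 1 v2) = _
    simp [mulS, q]
  | v3 =>
    unfold D ga
    simp only [map_mul, toS_gen]
    show mulS (mulS (r v1 1 v1) (r (e13 1) 1 (e13 1))) (r v3 1 v3) = _
    simp [mulS, q]
  | e12 g =>
    unfold D
    simp only [map_mul, toS_gen]
    show mulS (r v1 1 v1) (r (e12 g) 1 (e12 g)) = _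
    simp [mulS, q]
  | e23 h =>
    unfold D al
    simp only [map_mul, toS_gen]
    show mulS (mulS (mulS (r v1 1 v1) (r (e12 1) 1 (e12 1))) (r v2 1 v2)) (r (e23 h) 1 (e23 h)) = _
    simp [mulS, q]
  | e13 g =>
    unfold D
    simp only [map_mul, toS_gen]
    show mulS (r v1 1 v1) (r (e13 g) 1 (e13 g)) = _
    simp [mulS, q]
  | tr g h =>
    unfold D
    simp only [map_mul, toS_gen]
    show mulS (r v1 1 v1) (r (tr g h) 1 (tr g h)) = _
    simp [mulS, q]

/-- `g ↦ C g` as a multiplicative map -/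
noncomputable def CHom (G : Type u) [Group G] : G →ₙ* PG (SG G) :=
  ⟨C, fun g h => (C_mul g h).symm⟩

theorem C_injective : Function.Injective (CHom G) := by
  intro g h hgh
  have : toS (C g) = toS (C h) := congrArg toS hgh
  rw [toS_C, toS_C] at this
  simpa using this

theorem range_C : Set.range (CHom G) = {y | GreenH y (X v1)} := by
  ext y
  constructor
  · rintro ⟨g, rfl⟩
    show GreenH (C g) (X v1)
    refine ⟨Or.inr ⟨⟨C g, (X1_C g).symm⟩, ⟨C g⁻¹, ?_⟩⟩, Or.inr ⟨⟨C g, (C_X1 g).symm⟩, ⟨C g⁻¹, ?_⟩⟩⟩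
    · rw [C_mul, mul_inv_cancel, C_one]
    · rw [C_mul, inv_mul_cancel, C_one]
  · intro hy
    have hy : GreenH y (X v1) := hy
    obtain ⟨hR, hL⟩ := hy
    have hone : y = X v1 → y ∈ Set.range (CHom G) := fun h => ⟨1, by rw [h]; exact C_one⟩
    rcases hR with h | ⟨⟨c, hc⟩, ⟨d, hd⟩⟩
    · exact hone h
    rcases hL with h | ⟨⟨c', hc'⟩, -⟩
    · exact hone h
    have hyX : y * X v1 = y := by rw [hc', mul_assoc, XX]
    have hcases : y = Z ∨ ∃ g w, y = C g * D w := by
      rw [hc]
      induction c using Con.induction_on with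
      | H m =>
        exact span m (X v1) (Or.inr ⟨1, v1, by
          show X v1 = C 1 * X v1
          rw [C_one, XX]⟩)
    rcases hcases with h | ⟨g, w, h⟩
    · exfalso
      have h1 := congrArg toS hd
      rw [h, map_mul, toS_gen, toS_gen] at h1
      have h2 : (r v1 1 v1 : SG G) = mulS zero (toS d) := h1
      simp [mulS] at h2
    · have h1 := congrArg toS hyX
      rw [h, map_mul, map_mul, toS_C, toS_D, toS_gen] at h1
      have h2 : mulS (mulS (r v1 g v1) (r v1 1 w)) (r v1 1 v1) =
        mulS (r v1 g v1) (r v1 1 w) := h1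
      rw [mulS_rr_some _ _ _ _ _ _ _ (q_self v1)] at h2
      rcases hq : q w v1 with _ | k
      · rw [mulS_rr_none _ _ _ _ _ _ hq] at h2
        simp at h2
      · rw [mulS_rr_some _ _ _ _ _ _ _ hq] at h2
        simp only [SG.r.injEq] at h2
        obtain ⟨-, -, h3⟩ := h2
        subst h3
        refine ⟨g, ?_⟩
        rw [h]
        show C g = C g * X v1
        rw [C_X1]

end Pool.Agent.H775R3.PGen
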