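import Pool.Agent.H775R3.PGBase

set_option autoImplicit false

namespace Pool.Agent.H775R3.PGen

universe u

variable {G : Type u} [Group G]

open V T SG

theorem mulS_zero (x : SG G) : mulS x zero = zero := by
  cases x <;> rfl

theorem mulS_tt_self (a : T) : mulS (t a : SG G) (t a) = t a := by
  simp [mulS]

theorem mulS_tt_ne (a b : T) (h : a ≠ b) :
    mulS (t a : SG G) (t b) = r (meet G a b) 1 (meet G a b) := by
  simp [mulS, h]

theorem mulS_tr_none (a : T) (x : V G) (g : G) (y : V G) (h : act a x = none) :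
    mulS (t a) (r x g y) = zero := by
  simp [mulS, h]

theorem mulS_tr_some (a : T) (x : V G) (g : G) (y : V G) (x' : V G) (k : G)
    (h : act a x = some (x', k)) :
    mulS (t a) (r x g y) = r x' (k * g) y := by
  simp [mulS, h]

theorem mulS_rt_none (a : T) (x : V G) (g : G) (y : V G) (h : act a y = none) :
    mulS (r x g y) (t a) = zero := by
  simp [mulS, h]

theorem mulS_rt_some (a : T) (x : V G) (g : G) (y : V G) (y' : V G) (k : G)
    (h : act a y = some (y', k)) :
    mulS (r x g y) (t a) = r x (g * k⁻¹) y' := by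
  simp [mulS, h]

theorem mulS_rr_none (x : V G) (g : G) (y x' : V G) (g' : G) (y' : V G) (h : q y x' = none) :
    mulS (r x g y) (r x' g' y') = zero := by
  simp [mulS, h]

theorem mulS_rr_some (x : V G) (g : G) (y x' : V G) (g' : G) (y' : V G) (k : G)
    (h : q y x' = some k) :
    mulS (r x g y) (r x' g' y') = r x (g * k * g') y' := by
  simp [mulS, h]

omit [Group G] in
theorem meet_comm (a b : T) : meet G a b = meet G b a := by
  cases a <;> cases b <;> rfl

/-- the involution -/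
def stS : SG G → SG G
  | zero => zero
  | t a => t a
  | r x g y => r y g⁻¹ x

theorem stS_stS (a : SG G) : stS (stS a) = a := by
  cases a <;> simp [stS]

theorem stS_mulS (a b : SG G) : stS (mulS a b) = mulS (stS b) (stS a) := by
  rcases a with _ | a | ⟨x, g, y⟩ <;> rcases b with _ | b | ⟨x', g', y'⟩
  · rfl
  · rfl
  · rfl
  · rfl
  · by_cases h : a = b
    · subst h; simp [stS, mulS]
    · rw [mulS_tt_ne a b h]
      simp only [stS, inv_one]
      rw [mulS_tt_ne b a (Ne.symm h), meet_comm]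
  · show stS (mulS (t a) (r x' g' y')) = mulS (r y' g'⁻¹ x') (t a)
    rcases h : act a x' with _ | ⟨z, k⟩
    · rw [mulS_tr_none a x' g' y' h, mulS_rt_none a y' g'⁻¹ x' h]; rfl
    · rw [mulS_tr_some a x' g' y' z k h, mulS_rt_some a y' g'⁻¹ x' z k h]
      simp [stS]
  · rfl
  · show stS (mulS (r x g y) (t b)) = mulS (t b) (r y g⁻¹ x)
    rcases h : act b y with _ | ⟨z, k⟩
    · rw [mulS_rt_none b x g y h, mulS_tr_none b y g⁻¹ x h]; rfl
    · rw [mulS_rt_some b x g y z k h, mulS_tr_some b y g⁻¹ x z k h]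
      simp [stS]
  · show stS (mulS (r x g y) (r x' g' y')) = mulS (r y' g'⁻¹ x') (r y g⁻¹ x)
    have hs := q_symm y x'
    rcases h : q x' y with _ | k
    · rw [h] at hs
      rw [mulS_rr_none _ _ _ _ _ _ hs, mulS_rr_none _ _ _ _ _ _ h]; rfl
    · rw [h] at hs
      rw [mulS_rr_some _ _ _ _ _ _ _ hs, mulS_rr_some _ _ _ _ _ _ _ h]
      simp [stS, mul_assoc]

theorem mulS_ttt (a b c : T) :
    mulS (mulS (t a : SG G) (t b)) (t c) = mulS (t a) (mulS (t b) (t c)) := by
  cases a <;> cases b <;> cases c <;> simp [mulS, meet, act]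

theorem mulS_ttr (a b : T) (x : V G) (g : G) (y : V G) :
    mulS (mulS (t a) (t b)) (r x g y) = mulS (t a) (mulS (t b) (r x g y)) := by
  by_cases hab : a = b
  · subst hab
    rw [mulS_tt_self]
    rcases h : act a x with _ | ⟨x', k⟩
    · rw [mulS_tr_none a x g y h]; rfl
    · rw [mulS_tr_some a x g y x' k h, mulS_tr_some a x' _ y x' 1 (act_act a x x' k h), one_mul]
  · rw [mulS_tt_ne a b hab]
    have h2 := act_two a b hab x
    rcases h : act b x with _ | ⟨x', k⟩
    · rw [mulS_tr_none b x g y h]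
      rw [h] at h2
      simp only [Option.bind_none] at h2
      have hq : q (meet G a b) x = none := by
        rcases hq : q (meet G a b) x with _ | c
        · rfl
        · rw [hq] at h2; simp at h2
      rw [mulS_rr_none _ _ _ _ _ _ hq]; rfl
    · rw [mulS_tr_some b x g y x' k h]
      rw [h] at h2
      simp only [Option.bind_some] at h2
      rcases h3 : act a x' with _ | ⟨x'', k'⟩
      · rw [h3] at h2
        have hq : q (meet G a b) x = none := by
          rcases hq : q (meet G a b) x with _ | c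
          · rfl
          · rw [hq] at h2; simp at h2
        rw [mulS_rr_none _ _ _ _ _ _ hq, mulS_tr_none _ _ _ _ h3]
      · rw [h3] at h2
        rcases hq : q (meet G a b) x with _ | c
        · rw [hq] at h2; simp at h2
        · rw [hq] at h2
          simp only [Option.map_some, Option.some.injEq, Prod.mk.injEq] at h2
          rw [mulS_rr_some _ _ _ _ _ _ _ hq, mulS_tr_some _ _ _ _ _ _ h3, ← h2.1, ← h2.2]
          simp [mul_assoc]

theorem mulS_trt (a b : T) (x : V G) (g : G) (y : V G) :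
    mulS (mulS (t a) (r x g y)) (t b) = mulS (t a) (mulS (r x g y) (t b)) := by
  rcases h : act a x with _ | ⟨x', k⟩ <;> rcases h' : act b y with _ | ⟨y', l⟩
  · rw [mulS_tr_none a x g y h, mulS_rt_none b x g y h']; rfl
  · rw [mulS_tr_none a x g y h, mulS_rt_some b x g y y' l h', mulS_tr_none _ _ _ _ h]; rfl
  · rw [mulS_tr_some a x g y x' k h, mulS_rt_none b x g y h', mulS_rt_none _ _ _ _ h']; rfl
  · rw [mulS_tr_some a x g y x' k h, mulS_rt_some b x g y y' l h', mulS_rt_some _ _ _ _ _ _ h',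
      mulS_tr_some _ _ _ _ _ _ h, mul_assoc]

theorem mulS_trr (a : T) (x : V G) (g : G) (y x' : V G) (g' : G) (y' : V G) :
    mulS (mulS (t a) (r x g y)) (r x' g' y') = mulS (t a) (mulS (r x g y) (r x' g' y')) := by
  rcases h : act a x with _ | ⟨z, k⟩ <;> rcases h' : q y x' with _ | l
  · rw [mulS_tr_none a x g y h, mulS_rr_none _ _ _ _ _ _ h']; rfl
  · rw [mulS_tr_none a x g y h, mulS_rr_some _ _ _ _ _ _ _ h', mulS_tr_none _ _ _ _ h]; rfl
  · rw [mulS_tr_some a x g y _ k h, mulS_rr_none _ _ _ _ _ _ h', mulS_rr_none _ _ _ _ _ _ h']; rfl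
  · rw [mulS_tr_some a x g y _ k h, mulS_rr_some _ _ _ _ _ _ _ h', mulS_rr_some _ _ _ _ _ _ _ h',
      mulS_tr_some _ _ _ _ _ _ h]
    simp [mul_assoc]

theorem mulS_rtr (a : T) (x : V G) (g : G) (y x' : V G) (g' : G) (y' : V G) :
    mulS (mulS (r x g y) (t a)) (r x' g' y') = mulS (r x g y) (mulS (t a) (r x' g' y')) := by
  have h2 := adj a x' y
  rcases h : act a y with _ | ⟨z, k⟩ <;> rcases h' : act a x' with _ | ⟨z', l⟩ <;>
    rw [h, h'] at h2
  · rw [mulS_rt_none _ _ _ _ h, mulS_tr_none _ _ _ _ h', mulS_zero]; rfl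
  · rw [mulS_rt_none _ _ _ _ h, mulS_tr_some _ _ _ _ _ _ h']
    simp only [Option.bind_none, Option.bind_some] at h2
    rcases hq : q y z' with _ | c
    · rw [mulS_rr_none _ _ _ _ _ _ hq]; rfl
    · rw [hq] at h2; simp at h2
  · rw [mulS_rt_some _ _ _ _ _ _ h, mulS_tr_none _ _ _ _ h', mulS_zero]
    simp only [Option.bind_none, Option.bind_some] at h2
    rcases hq : q z x' with _ | c
    · rw [mulS_rr_none _ _ _ _ _ _ hq]
    · rw [hq] at h2; simp at h2
  · rw [mulS_rt_some _ _ _ _ _ _ h, mulS_tr_some _ _ _ _ _ _ h']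
    simp only [Option.bind_some] at h2
    rcases hq : q z x' with _ | c <;> rcases hq' : q y z' with _ | c' <;> rw [hq, hq'] at h2
    · rw [mulS_rr_none _ _ _ _ _ _ hq, mulS_rr_none _ _ _ _ _ _ hq']
    · simp at h2
    · simp at h2
    · simp only [Option.map_some, Option.some.injEq] at h2
      rw [mulS_rr_some _ _ _ _ _ _ _ hq, mulS_rr_some _ _ _ _ _ _ _ hq', mul_assoc g k⁻¹ c, h2]
      simp [mul_assoc]

theorem mulS_rrr (x : V G) (g : G) (y x' : V G) (g' : G) (y' x'' : V G) (g'' : G) (y'' : V G) :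
    mulS (mulS (r x g y) (r x' g' y')) (r x'' g'' y'') =
      mulS (r x g y) (mulS (r x' g' y') (r x'' g'' y'')) := by
  rcases h : q y x' with _ | k <;> rcases h' : q y' x'' with _ | l
  · rw [mulS_rr_none _ _ _ _ _ _ h, mulS_rr_none _ _ _ _ _ _ h']; rfl
  · rw [mulS_rr_none _ _ _ _ _ _ h, mulS_rr_some _ _ _ _ _ _ _ h', mulS_rr_none _ _ _ _ _ _ h]
    rfl
  · rw [mulS_rr_some _ _ _ _ _ _ _ h, mulS_rr_none _ _ _ _ _ _ h', mulS_rr_none _ _ _ _ _ _ h']
    rfl
  · rw [mulS_rr_some _ _ _ _ _ _ _ h, mulS_rr_some _ _ _ _ _ _ _ h',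
      mulS_rr_some _ _ _ _ _ _ _ h', mulS_rr_some _ _ _ _ _ _ _ h]
    simp [mul_assoc]

/-- the mirror image of an associativity instance -/
theorem assoc_mirror (a b c : SG G)
    (h : mulS (mulS (stS c) (stS b)) (stS a) = mulS (stS c) (mulS (stS b) (stS a))) :
    mulS (mulS a b) c = mulS a (mulS b c) := by
  have h1 : stS (mulS (mulS a b) c) = stS (mulS a (mulS b c)) := by
    simp only [stS_mulS]
    exact h.symm
  rw [← stS_stS (mulS (mulS a b) c), h1, stS_stS]

theorem mulS_assoc (a b c : SG G) : mulS (mulS a b) c = mulS a (mulS b c) := by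
  rcases a with _ | a | ⟨x, g, y⟩
  · rfl
  · rcases b with _ | b | ⟨x', g', y'⟩
    · rfl
    · rcases c with _ | c | ⟨x'', g'', y''⟩
      · rw [mulS_zero]; rfl
      · exact mulS_ttt a b c
      · exact mulS_ttr a b x'' g'' y''
    · rcases c with _ | c | ⟨x'', g'', y''⟩
      · rw [mulS_zero]; rfl
      · exact mulS_trt a c x' g' y'
      · exact mulS_trr a x' g' y' x'' g'' y''
  · rcases b with _ | b | ⟨x', g', y'⟩
    · rfl
    · rcases c with _ | c | ⟨x'', g'', y''⟩
      · rw [mulS_zero]; rfl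
      · exact assoc_mirror _ _ _ (mulS_ttr c b y g⁻¹ x)
      · exact mulS_rtr b x g y x'' g'' y''
    · rcases c with _ | c | ⟨x'', g'', y''⟩
      · rw [mulS_zero]; rfl
      · exact assoc_mirror _ _ _ (mulS_trr c y' g'⁻¹ x' y g⁻¹ x)
      · exact mulS_rrr x g y x' g' y' x'' g'' y''

theorem mulS_stS_mulS (a : SG G) : mulS (mulS a (stS a)) a = a := by
  rcases a with _ | a | ⟨x, g, y⟩
  · rfl
  · simp [stS, mulS]
  · show mulS (mulS (r x g y) (r y g⁻¹ x)) (r x g y) = r x g y
    rw [mulS_rr_some _ _ _ _ _ _ _ (q_self y), mulS_rr_some _ _ _ _ _ _ _ (q_self x)]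
    simp

noncomputable instance : RegStarSemigroup (SG G) where
  mul := mulS
  mul_assoc := mulS_assoc
  st := stS
  st_st := stS_stS
  mul_st_mul := mulS_stS_mulS
  st_mul := stS_mulS

theorem mul_def (a b : SG G) : a * b = mulS a b := rfl

theorem st_def (a : SG G) : RegStarSemigroup.st a = stS a := rfl

/-- projections `r v 1 v` -/
def pX (v : V G) : Proj (SG G) := ⟨r v 1 v, by
  refine ⟨?_, ?_⟩
  · rw [mul_def, mulS_rr_some _ _ _ _ _ _ _ (q_self v)]; simp
  · rw [st_def]; simp [stS]⟩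

/-- projections `t a` -/
def pY (a : T) : Proj (SG G) := ⟨t a, by
  refine ⟨?_, ?_⟩
  · rw [mul_def, mulS_tt_self]
  · rw [st_def]; simp [stS]⟩

/-- the projection zero -/
def pZ : Proj (SG G) := ⟨zero, by
  refine ⟨?_, ?_⟩
  · rfl
  · rfl⟩

theorem proj_cases (p : Proj (SG G)) : p = pZ ∨ (∃ a, p = pY a) ∨ ∃ v, p = pX v := by
  obtain ⟨p, hp1, hp2⟩ := p
  rcases p with _ | a | ⟨x, g, y⟩
  · exact Or.inl rfl
  · exact Or.inr (Or.inl ⟨a, rfl⟩)
  · right; right
    rw [st_def] at hp2
    simp only [stS, SG.r.injEq] at hp2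
    obtain ⟨rfl, h2, -⟩ := hp2
    rw [mul_def, mulS_rr_some _ _ _ _ _ _ _ (q_self y)] at hp1
    simp only [mul_one, SG.r.injEq, true_and, and_true] at hp1
    have hg : g = 1 := by simpa using hp1
    subst hg
    exact ⟨y, rfl⟩

end Pool.Agent.H775R3.PGen
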